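import Mathlib

namespace Pool.Agent.Helper41.Isbell

open MulAction
open scoped commutatorElement

section

variable {S X : Type*} [Group S] [Finite S] [MulAction S X] [Finite X]

/-- For fixed `y`, the number of `z ∈ B` with `z • y ∈ T` times the size of the `B`-orbit of `y` is at
most `|B| * |T|`. -/
theorem card_smul_mem_le (B : Subgroup S) (y : X) (T : Set X) :
    Nat.card {z : B // z • y ∈ T} * (orbit B y).ncard ≤ Nat.card B * T.ncard := by
  classical
  have h1 : Nat.card B = (orbit B y).ncard * Nat.card (stabilizer B y) := by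
    have h := Nat.card_congr (MulAction.orbitProdStabilizerEquivGroup B y)
    rw [Nat.card_prod] at h
    rw [← h]
    rfl
  -- the set of z maps to T with fibers of size stabilizer
  have h2 : Nat.card {z : B // z • y ∈ T} ≤ T.ncard * Nat.card (stabilizer B y) := by
    -- inject into T × stabilizer : choose for each t in T a z_t with z_t • y = t if possible
    let rep : X → B := fun t => if h : ∃ z : B, z • y = t then h.choose else 1
    have hrep : ∀ z : B, rep (z • y) • y = z • y := by
      intro z
      have h : ∃ z' : B, z' • y = z • y := ⟨z, rfl⟩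
      simp only [rep, dif_pos h]
      exact h.choose_spec
    let f : {z : B // z • y ∈ T} → T × stabilizer B y := fun z =>
      (⟨z.1 • y, z.2⟩, ⟨(rep (z.1 • y))⁻¹ * z.1, by
        rw [mem_stabilizer_iff, mul_smul, inv_smul_eq_iff]
        exact (hrep z.1).symm⟩)
    have hf : Function.Injective f := by
      intro z z' h
      simp only [f, Prod.mk.injEq, Subtype.mk.injEq] at h
      obtain ⟨ha, hb⟩ := h
      rw [ha] at hb
      exact Subtype.ext (mul_left_cancel hb)
    have := Nat.card_le_card_of_injective f hf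
    rw [Nat.card_prod] at this
    exact this
  calc Nat.card {z : B // z • y ∈ T} * (orbit B y).ncard
      ≤ (T.ncard * Nat.card (stabilizer B y)) * (orbit B y).ncard := Nat.mul_le_mul_right _ h2
    _ = Nat.card B * T.ncard := by rw [h1]; ring

/-- Orbit sizes of a normal subgroup are constant along orbits of the big group. -/
theorem ncard_orbit_normal (B : Subgroup S) [hB : B.Normal] (g : S) (x : X) :
    (orbit B (g • x)).ncard = (orbit B x).ncard := by
  have : orbit B (g • x) = (fun y => g • y) '' orbit B x := by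
    ext y
    constructor
    · rintro ⟨b, rfl⟩
      refine ⟨(⟨g⁻¹ * b * g, ?_⟩ : B) • x, ⟨_, rfl⟩, ?_⟩
      · have := hB.conj_mem b.1 b.2 g⁻¹
        simpa using this
      · simp only [Subgroup.smul_def, smul_smul]
        congr 1
        group
    · rintro ⟨_, ⟨b, rfl⟩, rfl⟩
      refine ⟨(⟨g * b * g⁻¹, hB.conj_mem b.1 b.2 g⟩ : B), ?_⟩
      simp only [Subgroup.smul_def, smul_smul]
      congr 1
      group
  rw [this, Set.ncard_image_of_injective _ (MulAction.injective g)]

variable (A B : Subgroup S)

/-- If `[B, S] ≤ A` with `A` normal, being mapped into its `A`-orbit is invariant along `B`-orbits. -/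
theorem mem_orbit_invariant [hA : A.Normal]
    (hcomm : ∀ z ∈ B, ∀ g : S, ⁅z, g⁆ ∈ A) (h : S) (y : X) (hy : h • y ∈ orbit A y) (b : S)
    (hb : b ∈ B) : h • (b • y) ∈ orbit A (b • y) := by
  obtain ⟨a, ha⟩ := hy
  -- h b y = b h [h⁻¹, b⁻¹]... write h b = (h b h⁻¹ b⁻¹) b h
  have ha' : (a : S) • y = h • y := ha
  have hc : h * b * h⁻¹ * b⁻¹ ∈ A := by
    have h1 := hcomm b hb h
    have h2 : h * b * h⁻¹ * b⁻¹ = (⁅b, h⁆)⁻¹ := by
      simp [commutatorElement_def, mul_assoc]
    rw [h2]
    exact A.inv_mem h1
  refine ⟨⟨(h * b * h⁻¹ * b⁻¹) * (b * a * b⁻¹), A.mul_mem hc (hA.conj_mem _ a.2 b)⟩, ?_⟩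
  change ((h * b * h⁻¹ * b⁻¹) * (b * a * b⁻¹)) • (b • y) = h • (b • y)
  rw [smul_smul, smul_smul]
  have : (h * b * h⁻¹ * b⁻¹) * (b * a * b⁻¹) * b = (h * b * h⁻¹) * a := by group
  rw [this, mul_smul, ha', smul_smul]
  congr 1
  group

/-- The key count of bad elements. -/
theorem bad_count [hA : A.Normal] [hB : B.Normal]
    (hcomm : ∀ z ∈ B, ∀ g : S, ⁅z, g⁆ ∈ A) (g : S) (x : X) :
    Nat.card {z : B // ∃ y ∈ orbit S x, (g * z) • y ∈ orbit A y} *
        ((orbit B x).ncard * (orbit B x).ncard)
      ≤ (orbit S x).ncard * (Nat.card B * (orbit A x).ncard) := by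
  classical
  haveI : Fintype X := Fintype.ofFinite X
  haveI : Fintype B := Fintype.ofFinite B
  -- double counting of pairs
  let Y : Finset X := (orbit S x).toFinset
  let Zs : Finset B := Finset.univ.filter (fun z => ∃ y ∈ orbit S x, (g * z) • y ∈ orbit A y)
  have hZs : Nat.card {z : B // ∃ y ∈ orbit S x, (g * z) • y ∈ orbit A y} = Zs.card := by
    rw [Nat.card_eq_fintype_card, Fintype.card_subtype]
  have hY : (orbit S x).ncard = Y.card := by
    rw [Set.ncard_eq_toFinset_card']
  let r : B → X → Prop := fun z y => (g * z) • y ∈ orbit A y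
  -- lower bound for each bad z
  have hlow : ∀ z ∈ Zs, (orbit B x).ncard ≤ (Y.filter (fun y => r z y)).card := by
    intro z hz
    obtain ⟨y, hy, hyz⟩ := (Finset.mem_filter.mp hz).2
    have hsub : (orbit B y) ⊆ ((Y.filter (fun y => r z y) : Finset X) : Set X) := by
      rintro _ ⟨b, rfl⟩
      simp only [Finset.coe_filter, Set.mem_ofPred_eq]
      refine ⟨?_, ?_⟩
      · simp only [Y, Set.mem_toFinset]
        obtain ⟨s, rfl⟩ := hy
        exact ⟨(b : S) * s, by simp [mul_smul, Subgroup.smul_def]⟩
      · exact mem_orbit_invariant A B hcomm (g * z) y hyz b b.2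
    have h1 : (orbit B y).ncard = (orbit B x).ncard := by
      obtain ⟨s, rfl⟩ := hy
      exact ncard_orbit_normal B s x
    rw [← h1, ← Set.ncard_coe_finset]
    exact Set.ncard_le_ncard hsub (Finset.finite_toSet _)
  -- upper bound for each y
  have hup : ∀ y ∈ Y, (Zs.filter (fun z => r z y)).card * (orbit B x).ncard
      ≤ Nat.card B * (orbit A x).ncard := by
    intro y hy
    have hy' : y ∈ orbit S x := by simpa [Y] using hy
    have h1 : (orbit B y).ncard = (orbit B x).ncard := by
      obtain ⟨s, rfl⟩ := hy'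
      exact ncard_orbit_normal B s x
    have h2 : (orbit A y).ncard = (orbit A x).ncard := by
      obtain ⟨s, rfl⟩ := hy'
      exact ncard_orbit_normal A s x
    let T : Set X := (fun w => g⁻¹ • w) '' orbit A y
    have hT : T.ncard = (orbit A y).ncard :=
      Set.ncard_image_of_injective _ (MulAction.injective g⁻¹)
    have h3 : (Zs.filter (fun z => r z y)).card ≤ Nat.card {z : B // z • y ∈ T} := by
      rw [Nat.card_eq_fintype_card, Fintype.card_subtype]
      apply Finset.card_le_card
      intro z hz
      rw [Finset.mem_filter] at hz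
      rw [Finset.mem_filter]
      refine ⟨Finset.mem_univ _, (g * z) • y, hz.2, ?_⟩
      simp [mul_smul, Subgroup.smul_def]
    calc (Zs.filter (fun z => r z y)).card * (orbit B x).ncard
        ≤ Nat.card {z : B // z • y ∈ T} * (orbit B y).ncard := by
          rw [h1]; exact Nat.mul_le_mul_right _ h3
      _ ≤ Nat.card B * T.ncard := card_smul_mem_le B y T
      _ = Nat.card B * (orbit A x).ncard := by rw [hT, h2]
  rw [hZs, hY]
  have hdc : ∑ z ∈ Zs, (Y.filter (fun y => r z y)).card = ∑ y ∈ Y, (Zs.filter (fun z => r z y)).card := by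
    simp only [Finset.card_filter]
    rw [Finset.sum_comm]
  calc Zs.card * ((orbit B x).ncard * (orbit B x).ncard)
      = (∑ _z ∈ Zs, (orbit B x).ncard) * (orbit B x).ncard := by
        rw [Finset.sum_const, smul_eq_mul]; ring
    _ ≤ (∑ z ∈ Zs, (Y.filter (fun y => r z y)).card) * (orbit B x).ncard :=
        Nat.mul_le_mul_right _ (Finset.sum_le_sum hlow)
    _ = ∑ y ∈ Y, ((Zs.filter (fun z => r z y)).card * (orbit B x).ncard) := by
        rw [hdc, Finset.sum_mul]
    _ ≤ ∑ _y ∈ Y, (Nat.card B * (orbit A x).ncard) := Finset.sum_le_sum hup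
    _ = Y.card * (Nat.card B * (orbit A x).ncard) := by
        rw [Finset.sum_const, smul_eq_mul]

end

section main

variable {S X : Type*} [Group S] [Finite S] [MulAction S X] [Finite X]

/-- One step of the construction: choose `z ∈ B` so that `g * z` moves every point of the relevant
orbits out of its `A`-orbit. -/
theorem exists_good (A B : Subgroup S) [hA : A.Normal] [hB : B.Normal]
    (hcomm : ∀ z ∈ B, ∀ g : S, ⁅z, g⁆ ∈ A) (k D : ℕ) (hk0 : 0 < k) (hD : 0 < D)
    (hk : Nat.card (orbitRel.Quotient S X) ≤ k) (g : S) :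
    ∃ z ∈ B, ∀ x : X, (orbit S x).ncard ≤ D * (orbit B x).ncard →
      k * D ^ 2 * (orbit A x).ncard < (orbit S x).ncard → (g * z) • x ∉ orbit A x := by
  classical
  have : Fintype X := Fintype.ofFinite X
  have : Fintype B := Fintype.ofFinite B
  have : Fintype (orbitRel.Quotient S X) := Fintype.ofFinite _
  let Good : X → Prop := fun x => (orbit S x).ncard ≤ D * (orbit B x).ncard ∧
      k * D ^ 2 * (orbit A x).ncard < (orbit S x).ncard
  -- bad set attached to a point
  let bad : X → Finset B := fun x => Finset.univ.filter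
    (fun z : B => ∃ y ∈ orbit S x, (g * z) • y ∈ orbit A y)
  have hbad : ∀ x, Good x → (bad x).card * k < Nat.card B := by
    intro x hx
    have h1 := bad_count A B hcomm g x
    have h2 : Nat.card {z : B // ∃ y ∈ orbit S x, (g * z) • y ∈ orbit A y} = (bad x).card := by
      rw [Nat.card_eq_fintype_card, Fintype.card_subtype]
    rw [h2] at h1
    obtain ⟨hx1, hx2⟩ := hx
    have hBpos : 0 < Nat.card B := Nat.card_pos
    have hOpos : 0 < (orbit S x).ncard := by
      rw [Set.ncard_pos]; exact ⟨x, mem_orbit_self x⟩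
    have hoB : 0 < (orbit B x).ncard := by
      rw [Set.ncard_pos]; exact ⟨x, mem_orbit_self x⟩
    by_contra hcon
    push Not at hcon
    set b := (bad x).card
    set oS := (orbit S x).ncard
    set oB := (orbit B x).ncard
    set oA := (orbit A x).ncard
    set nB := Nat.card B
    -- nB ≤ b * k, b * oB^2 ≤ oS * (nB * oA), oS ≤ D*oB, k*D^2*oA < oS
    have e1 : nB * (oB * oB) * (k * D ^ 2) ≤ (b * (oB * oB)) * k * (k * D ^ 2) := by
      have := Nat.mul_le_mul_right ((oB * oB) * (k * D ^ 2)) hcon
      nlinarith [this]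
    have e2 : (b * (oB * oB)) * k * (k * D ^ 2) ≤ (oS * (nB * oA)) * k * (k * D ^ 2) := by
      exact Nat.mul_le_mul_right _ (Nat.mul_le_mul_right _ h1)
    have e3 : (oS * (nB * oA)) * k * (k * D ^ 2) = (oS * nB * k) * (k * D ^ 2 * oA) := by ring
    have e4 : (oS * nB * k) * (k * D ^ 2 * oA) < (oS * nB * k) * oS :=
      Nat.mul_lt_mul_of_pos_left hx2 (by positivity)
    have e5 : (oS * nB * k) * oS ≤ (D * oB) * (D * oB) * (nB * k) := by
      have := Nat.mul_le_mul hx1 hx1
      calc (oS * nB * k) * oS = (oS * oS) * (nB * k) := by ring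
        _ ≤ (D * oB) * (D * oB) * (nB * k) := Nat.mul_le_mul_right _ this
    have e6 : (D * oB) * (D * oB) * (nB * k) = nB * (oB * oB) * (k * D ^ 2) := by ring
    omega
  -- sum over orbits
  let Q : Finset (orbitRel.Quotient S X) := Finset.univ.filter (fun q => Good q.out)
  have hQ : Q.card ≤ k := by
    calc Q.card ≤ Fintype.card (orbitRel.Quotient S X) := Finset.card_le_univ _
      _ = Nat.card (orbitRel.Quotient S X) := Nat.card_eq_fintype_card.symm
      _ ≤ k := hk
  have hunion : (Q.biUnion (fun q => bad q.out)).card < Nat.card B := by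
    by_cases hQe : Q.Nonempty
    · have h1 : (Q.biUnion (fun q => bad q.out)).card ≤ ∑ q ∈ Q, (bad q.out).card :=
        Finset.card_biUnion_le
      have h2 : (∑ q ∈ Q, (bad q.out).card) * k < k * Nat.card B := by
        rw [Finset.sum_mul]
        calc ∑ q ∈ Q, (bad q.out).card * k < ∑ _q ∈ Q, Nat.card B := by
              apply Finset.sum_lt_sum_of_nonempty hQe
              intro q hq
              exact hbad _ (Finset.mem_filter.mp hq).2
          _ = Q.card * Nat.card B := by rw [Finset.sum_const, smul_eq_mul]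
          _ ≤ k * Nat.card B := Nat.mul_le_mul_right _ hQ
      have h3 : (∑ q ∈ Q, (bad q.out).card) < Nat.card B := by
        rw [mul_comm k] at h2
        exact Nat.lt_of_mul_lt_mul_right h2
      omega
    · rw [Finset.not_nonempty_iff_eq_empty] at hQe
      rw [hQe]
      simp only [Finset.biUnion_empty, Finset.card_empty]
      exact Nat.card_pos
  obtain ⟨z, hz⟩ : ∃ z : B, z ∉ Q.biUnion (fun q => bad q.out) := by
    by_contra hcon
    push Not at hcon
    have : (Q.biUnion (fun q => bad q.out)) = Finset.univ := by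
      ext z; simp [hcon z]
    rw [this, Finset.card_univ, ← Nat.card_eq_fintype_card] at hunion
    exact lt_irrefl _ hunion
  refine ⟨z, z.2, ?_⟩
  intro x hx1 hx2 hmem
  apply hz
  rw [Finset.mem_biUnion]
  let q : orbitRel.Quotient S X := Quotient.mk'' x
  have hq : q.out ∈ orbit S x := by
    have : (Quotient.mk'' (q.out) : orbitRel.Quotient S X) = Quotient.mk'' x := by
      simp [q]
    rw [Quotient.eq''] at this
    exact this
  have hxq : x ∈ orbit S q.out := by
    rw [mem_orbit_symm]; exact hq
  have hgood : Good q.out := by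
    obtain ⟨s, hs⟩ := hq
    have hs' : s • x = q.out := hs
    have hSS : (orbit S (s • x)) = orbit S x := orbit_smul s x
    rw [← hs']
    refine ⟨?_, ?_⟩
    · rw [hSS, ncard_orbit_normal B s x]; exact hx1
    · rw [hSS, ncard_orbit_normal A s x]; exact hx2
  refine ⟨q, ?_, ?_⟩
  · exact Finset.mem_filter.mpr ⟨Finset.mem_univ _, hgood⟩
  · exact Finset.mem_filter.mpr ⟨Finset.mem_univ _, x, hxq, hmem⟩

/-- **Fixed-point-free elements in nilpotent actions.** Let a finite group `S` act on a finite set with at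
most `k` orbits, each of size at least `m`, and let `1 = Z 0 ≤ ... ≤ Z c = S` be a central series of the
action.  If `k ^ (2 ^ c - 1) < m` then some element of `S` has no fixed point. -/
theorem exists_fpf_of_central_chain (c : ℕ) (Z : ℕ → Subgroup S) (hZn : ∀ j, (Z j).Normal)
    (hZ0 : ∀ z ∈ Z 0, ∀ x : X, z • x = x) (hZc : Z c = ⊤) (hmono : ∀ j < c, Z j ≤ Z (j + 1))
    (hcomm : ∀ j < c, ∀ z ∈ Z (j + 1), ∀ g : S, ⁅z, g⁆ ∈ Z j) (k m : ℕ)
    (hk : Nat.card (orbitRel.Quotient S X) ≤ k) (hm : ∀ x : X, m ≤ (orbit S x).ncard)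
    (hkm : k ^ (2 ^ c - 1) < m) : ∃ g : S, ∀ x : X, g • x ≠ x := by
  classical
  by_cases hX : IsEmpty X
  · exact ⟨1, fun x => (hX.false x).elim⟩
  rw [not_isEmpty_iff] at hX
  have hk0 : 0 < k := by
    refine lt_of_lt_of_le ?_ hk
    haveI : Nonempty (orbitRel.Quotient S X) := ⟨Quotient.mk'' (Classical.arbitrary X)⟩
    exact Nat.card_pos
  let D : ℕ → ℕ := fun j => k ^ (2 ^ (c - j) - 1)
  have hDpos : ∀ j, 0 < D j := fun j => Nat.pow_pos hk0
  have hDc : D c = 1 := by simp [D]
  have hDstep : ∀ j < c, D j = k * (D (j + 1)) ^ 2 := by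
    intro j hj
    simp only [D]
    rw [← pow_mul, ← pow_succ']
    congr 1
    have h1 : c - j = (c - (j + 1)) + 1 := by omega
    rw [h1, pow_succ]
    have : 0 < 2 ^ (c - (j + 1)) := by positivity
    omega
  -- layer `j + 1`
  let L : ℕ → X → Prop := fun j x => (orbit S x).ncard ≤ D (j + 1) * (orbit (Z (j + 1)) x).ncard ∧
    D j * (orbit (Z j) x).ncard < (orbit S x).ncard
  have key : ∀ r : ℕ, r ≤ c → ∃ g : S, ∀ i, c - r ≤ i → i < c → ∀ x : X, L i x →
      g • x ∉ orbit (Z i) x := by
    intro r
    induction r with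
    | zero =>
      intro _
      exact ⟨1, fun i hi hi' => by omega⟩
    | succ r ih =>
      intro hr
      obtain ⟨g, hg⟩ := ih (by omega)
      set j := c - (r + 1) with hj
      have hjc : j < c := by omega
      haveI := hZn j
      haveI := hZn (j + 1)
      obtain ⟨z, hz, hzg⟩ := exists_good (X := X) (Z j) (Z (j + 1)) (hcomm j hjc) k (D (j + 1)) hk0
        (hDpos _) hk g
      refine ⟨g * z, ?_⟩
      intro i hi hic x hL
      rcases Nat.eq_or_lt_of_le hi with h | h
      · subst h
        apply hzg x hL.1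
        have := hL.2
        rw [hDstep j hjc] at this
        exact this
      · -- i ≥ j + 1
        have hle : Z (j + 1) ≤ Z i := by
          have : ∀ n, j + 1 + n ≤ c → Z (j + 1) ≤ Z (j + 1 + n) := by
            intro n
            induction n with
            | zero => intro _; exact le_rfl
            | succ n ihn =>
              intro hn
              exact (ihn (by omega)).trans (hmono _ (by omega))
          have h2 := this (i - (j + 1)) (by omega)
          have h3 : j + 1 + (i - (j + 1)) = i := by omega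
          rwa [h3] at h2
        intro hmem
        apply hg i (by omega) hic x hL
        -- g z x ∈ Z_i x, so g x = (g z⁻¹ g⁻¹) (g z x) ∈ Z_i x
        obtain ⟨w, hw⟩ := hmem
        have hw' : (w : S) • x = (g * z) • x := hw
        have hzi : g * z⁻¹ * g⁻¹ ∈ Z i := (hZn i).conj_mem _ ((Z i).inv_mem (hle hz)) g
        refine ⟨⟨g * z⁻¹ * g⁻¹ * w, (Z i).mul_mem hzi w.2⟩, ?_⟩
        change (g * z⁻¹ * g⁻¹ * (w : S)) • x = g • x
        rw [mul_smul, hw', smul_smul]
        congr 1
        group
  obtain ⟨g, hg⟩ := key c le_rfl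
  refine ⟨g, fun x hx => ?_⟩
  -- find the layer
  have hex : ∃ j, j ≤ c ∧ (orbit S x).ncard ≤ D j * (orbit (Z j) x).ncard := by
    refine ⟨c, le_rfl, ?_⟩
    rw [hDc, one_mul]
    apply Set.ncard_le_ncard _ (Set.toFinite _)
    rintro _ ⟨s, rfl⟩
    exact ⟨⟨s, by rw [hZc]; trivial⟩, rfl⟩
  let j0 := Nat.find hex
  have hj0 := Nat.find_spec hex
  have hne : j0 ≠ 0 := by
    intro h0
    have h1 : (orbit S x).ncard ≤ D 0 * (orbit (Z 0) x).ncard := by
      have := hj0.2
      change (orbit S x).ncard ≤ D j0 * (orbit (Z j0) x).ncard at this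
      rwa [h0] at this
    have h2 : (orbit (Z 0) x).ncard = 1 := by
      rw [Set.ncard_eq_one]
      refine ⟨x, ?_⟩
      ext y
      constructor
      · rintro ⟨z, rfl⟩
        exact hZ0 z z.2 x
      · rintro rfl
        exact mem_orbit_self _
    have h3 := hm x
    rw [h2, mul_one] at h1
    have : D 0 = k ^ (2 ^ c - 1) := by simp [D]
    omega
  obtain ⟨i, hi⟩ := Nat.exists_eq_succ_of_ne_zero hne
  have hic : i < c := by
    have := hj0.1
    change j0 ≤ c at this
    omega
  have hL : L i x := by
    refine ⟨?_, ?_⟩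
    · have := hj0.2
      change (orbit S x).ncard ≤ D j0 * (orbit (Z j0) x).ncard at this
      rwa [hi] at this
    · by_contra hcon
      push Not at hcon
      exact Nat.find_min hex (m := i) (by change i < j0; omega) ⟨hic.le, hcon⟩
  apply hg i (by omega) hic x hL
  rw [hx]
  exact mem_orbit_self x

end main

end Pool.Agent.Helper41.Isbell
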