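import Pool.Agent.Helper41_Isbell.UnitsTw

/-!
# Counting units of the ring of twisted Toeplitz matrices
-/

namespace Pool.Agent.Helper41.Isbell

section

variable (K : Type) [Field K] [CharP K 2] (m : ℕ)

/-- Elements of the ring are determined by their first row, which is arbitrary. -/
def rowEquiv : tw K (m + 1) ≃ (Fin (m + 1) → K) where
  toFun M := fun k => M.1 0 k
  invFun c := ⟨toep (m + 1) (fun k => if h : k < m + 1 then c ⟨k, h⟩ else 0), toep_mem _⟩
  left_inv := by
    rintro ⟨M, hM⟩
    apply Subtype.ext
    change toep (m + 1) (fun k => if h : k < m + 1 then M 0 ⟨k, h⟩ else 0) = M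
    exact (eq_toep_of_mem hM).symm
  right_inv := by
    intro c
    funext k
    change toep (m + 1) (fun k => if h : k < m + 1 then c ⟨k, h⟩ else 0) 0 k = c k
    rw [toep_apply]
    simp
    intro h
    have := k.2
    omega

theorem rowEquiv_zero (M : tw K (m + 1)) : rowEquiv K m M 0 = aug K (m + 1) M := rfl

/-- Units correspond to rows with nonzero first entry. -/
noncomputable def unitsEquiv : (tw K (m + 1))ˣ ≃ {a : K // a ≠ 0} × (Fin m → K) :=
  Equiv.ofBijective
    (fun u => (⟨rowEquiv K m u 0, by
      rw [rowEquiv_zero]
      exact (u.isUnit.map (aug K (m + 1))).ne_zero⟩, fun i => rowEquiv K m u i.succ)) (by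
    constructor
    · intro u v h
      simp only [Prod.mk.injEq, Subtype.mk.injEq] at h
      apply Units.ext
      apply (rowEquiv K m).injective
      funext k
      refine Fin.cases h.1 (fun i => congrFun h.2 i) k
    · rintro ⟨a, c⟩
      let r : Fin (m + 1) → K := Fin.cons a.1 c
      have hu : IsUnit ((rowEquiv K m).symm r) := by
        apply isUnit_of_aug
        rw [← rowEquiv_zero, Equiv.apply_symm_apply]
        simpa [r] using a.2
      refine ⟨hu.unit, ?_⟩
      apply Prod.ext
      · apply Subtype.ext
        simp [r]
      · funext i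
        simp [r])

theorem card_units [Finite K] : Nat.card (tw K (m + 1))ˣ = (Nat.card K - 1) * Nat.card K ^ m := by
  rw [Nat.card_congr (unitsEquiv K m), Nat.card_prod, Nat.card_fun]
  congr 1
  · rw [← Nat.card_units K]
    exact Nat.card_congr unitsEquivNeZero.symm
  · simp

theorem mem_fixedUnits_iff (u : (tw K (m + 1))ˣ) :
    u ∈ fixedUnits K (m + 1) ↔ ∀ k, (rowEquiv K m u k) ^ 2 = rowEquiv K m u k := by
  rw [mem_fixedUnits]
  constructor
  · intro h k
    have h1 := congrArg (fun M => rowEquiv K m M k) h
    have h2 : rowEquiv K m ((twData K (m + 1)).Φ (u : tw K (m + 1))) k =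
        (rowEquiv K m u k) ^ 2 := frobM_apply _ _ _
    rw [← h2]
    exact h1
  · intro h
    apply (rowEquiv K m).injective
    funext k
    have h2 : rowEquiv K m ((twData K (m + 1)).Φ (u : tw K (m + 1))) k =
        (rowEquiv K m u k) ^ 2 := frobM_apply _ _ _
    rw [h2, h k]

/-- Fixed units correspond to rows over the prime field with first entry `1`. -/
noncomputable def fixedEquiv : fixedUnits K (m + 1) ≃ (Fin m → {a : K // a ^ 2 = a}) :=
  Equiv.ofBijective
    (fun u => fun i => ⟨rowEquiv K m u.1 i.succ, (mem_fixedUnits_iff K m u.1).mp u.2 i.succ⟩) (by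
    constructor
    · intro u v h
      apply Subtype.ext
      apply Units.ext
      apply (rowEquiv K m).injective
      have h0 : ∀ w : fixedUnits K (m + 1), rowEquiv K m w.1 0 = 1 := by
        intro w
        have h1 := (mem_fixedUnits_iff K m w.1).mp w.2 0
        have h2 : rowEquiv K m w.1 0 ≠ 0 := by
          rw [rowEquiv_zero]
          exact (w.1.isUnit.map (aug K (m + 1))).ne_zero
        have h3 : rowEquiv K m w.1 0 * rowEquiv K m w.1 0 = rowEquiv K m w.1 0 * 1 := by
          rw [mul_one, ← sq]; exact h1
        exact mul_left_cancel₀ h2 h3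
      funext k
      refine Fin.cases ?_ (fun i => ?_) k
      · rw [h0 u, h0 v]
      · exact congrArg Subtype.val (congrFun h i)
    · intro c
      let r : Fin (m + 1) → K := Fin.cons 1 (fun i => (c i).1)
      have hu : IsUnit ((rowEquiv K m).symm r) := by
        apply isUnit_of_aug
        rw [← rowEquiv_zero, Equiv.apply_symm_apply]
        simp [r]
      refine ⟨⟨hu.unit, ?_⟩, ?_⟩
      · rw [mem_fixedUnits_iff]
        intro k
        rw [IsUnit.unit_spec, Equiv.apply_symm_apply]
        refine Fin.cases ?_ (fun i => ?_) k
        · simp [r]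
        · simpa [r] using (c i).2
      · funext i
        apply Subtype.ext
        simp [r])

theorem card_fixedUnits [Finite K] : Nat.card (fixedUnits K (m + 1)) = 2 ^ m := by
  rw [Nat.card_congr (fixedEquiv K m), Nat.card_fun]
  have h : Nat.card {a : K // a ^ 2 = a} = 2 := by
    have h1 : {a : K | a ^ 2 = a} = {0, 1} := by
      ext a
      simp only [Set.mem_ofPred_eq, Set.mem_insert_iff, Set.mem_singleton_iff]
      constructor
      · intro h
        by_cases ha : a = 0
        · left; exact ha
        · right
          have : a * a = a * 1 := by rw [mul_one, ← sq]; exact h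
          exact mul_left_cancel₀ ha this
      · rintro (rfl | rfl) <;> simp
    have h2 : Nat.card {a : K // a ^ 2 = a} = ({a : K | a ^ 2 = a} : Set K).ncard := rfl
    rw [h2, h1, Set.ncard_pair zero_ne_one]
  rw [h]
  simp

end

end Pool.Agent.Helper41.Isbell
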