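import Mathlib

/-!
# Frobenius facts in the field with `2 ^ q` elements, `q` an odd prime
-/

namespace Pool.Agent.Helper41.Isbell

section

variable {K : Type*} [Field K] [Finite K] [CharP K 2] {q : ℕ} [hq : Fact q.Prime]

theorem pow_two_pow_of_dvd (hcard : Nat.card K = 2 ^ q) {m : ℕ} (hm : q ∣ m) (x : K) :
    x ^ (2 ^ m) = x := by
  have : Fintype K := Fintype.ofFinite K
  obtain ⟨r, rfl⟩ := hm
  rw [Nat.card_eq_fintype_card] at hcard
  rw [pow_mul, ← hcard]
  exact FiniteField.pow_card_pow r x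

theorem coprime_card (hcard : Nat.card K = 2 ^ q) {k : ℕ} (hk : ¬ q ∣ k) :
    (Nat.card Kˣ).Coprime (2 ^ k - 1) := by
  have : Fintype K := Fintype.ofFinite K
  have h1 : Nat.card Kˣ = 2 ^ q - 1 := by
    rw [Nat.card_units, hcard]
  rw [h1, Nat.Coprime, Nat.pow_sub_one_gcd_pow_sub_one]
  have h2 : Nat.gcd q k = 1 := by
    have := (Nat.Prime.coprime_iff_not_dvd hq.out).mpr hk
    exact this
  rw [h2]; norm_num

theorem eq_one_of_pow (hcard : Nat.card K = 2 ^ q) {k : ℕ} (hk : ¬ q ∣ k) {a : K} (ha : a ≠ 0)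
    (h : a ^ (2 ^ k) = a) : a = 1 := by
  have hk0 : k ≠ 0 := by rintro rfl; exact hk (dvd_zero _)
  have h1 : a ^ (2 ^ k - 1) = 1 := by
    have h2 : a ^ (2 ^ k - 1) * a = 1 * a := by
      rw [← pow_succ, Nat.sub_add_cancel Nat.one_le_two_pow, h, one_mul]
    exact mul_right_cancel₀ ha h2
  have h2 : (Units.mk0 a ha) ^ (2 ^ k - 1) = 1 := by
    apply Units.ext
    simpa using h1
  have h3 := orderOf_dvd_of_pow_eq_one h2
  have h4 : orderOf (Units.mk0 a ha) ∣ Nat.card Kˣ := orderOf_dvd_natCard _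
  have h5 : orderOf (Units.mk0 a ha) = 1 := Nat.eq_one_of_dvd_coprimes (coprime_card hcard hk) h4 h3
  rw [orderOf_eq_one_iff] at h5
  have := congrArg Units.val h5
  simpa using this

theorem exists_scale (hcard : Nat.card K = 2 ^ q) {j : ℕ} (hj : ¬ q ∣ j) (a : K) (ha : a ≠ 0) :
    ∃ l : K, l ≠ 0 ∧ l * a * (l⁻¹) ^ (2 ^ j) = 1 := by
  have hcop := coprime_card (K := K) hcard hj
  obtain ⟨u, hu⟩ := (powCoprime hcop).surjective (Units.mk0 a ha)
  have hu' : u ^ (2 ^ j - 1) = Units.mk0 a ha := hu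
  have hu'' : (u : K) ^ (2 ^ j - 1) = a := by
    have := congrArg Units.val hu'
    simpa using this
  refine ⟨u, u.ne_zero, ?_⟩
  have h1 : (u : K) * a = (u : K) ^ (2 ^ j) := by
    rw [← hu'', ← pow_succ', Nat.sub_add_cancel Nat.one_le_two_pow]
  rw [h1, inv_pow, mul_inv_cancel₀ (pow_ne_zero _ u.ne_zero)]

theorem exists_add (hcard : Nat.card K = 2 ^ q) (hodd : Odd q) {j : ℕ} (hj : ¬ q ∣ j) (c : K) :
    ∃ x e : K, e ^ 2 = e ∧ c + x - x ^ (2 ^ j) = e := by
  classical
  have : Fintype K := Fintype.ofFinite K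
  let F : K →+ K := (iterateFrobenius K 2 j : K →+* K).toAddMonoidHom
  have hF : ∀ x, F x = x ^ (2 ^ j) := fun x => by simp [F, iterateFrobenius_def]
  let L : K →+ K := AddMonoidHom.id K - F
  have hL : ∀ x, L x = x - x ^ (2 ^ j) := fun x => by simp [L, hF]
  -- the kernel has two elements
  have hker : Nat.card L.ker = 2 := by
    have : (L.ker : Set K) = {0, 1} := by
      ext x
      simp only [SetLike.mem_coe, AddMonoidHom.mem_ker, hL, Set.mem_insert_iff,
        Set.mem_singleton_iff]
      constructor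
      · intro h
        by_cases hx : x = 0
        · left; exact hx
        · right
          exact eq_one_of_pow hcard hj hx (sub_eq_zero.mp h).symm
      · rintro (rfl | rfl)
        · simp
        · simp
    have h2 : Nat.card L.ker = (L.ker : Set K).ncard := rfl
    rw [h2, this, Set.ncard_pair zero_ne_one]
  have hidx : L.range.index = 2 := by
    have h1 : Nat.card L.range * L.range.index = Nat.card K := AddSubgroup.card_mul_index _
    have h2 : Nat.card L.ker * L.ker.index = Nat.card K := AddSubgroup.card_mul_index _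
    have h3 : L.ker.index = Nat.card L.range := AddSubgroup.index_ker L
    rw [hker, h3] at h2
    have hpos : 0 < Nat.card L.range := Nat.card_pos
    have : Nat.card L.range * L.range.index = Nat.card L.range * 2 := by rw [h1, ← h2]; ring
    exact Nat.eq_of_mul_eq_mul_left hpos this
  -- 1 is not in the range
  have hone : (1 : K) ∉ L.range := by
    rintro ⟨x, hx⟩
    rw [hL] at hx
    -- trace-like sum
    have h1 : ∑ i ∈ Finset.range q, (1 : K) ^ (2 ^ (j * i)) = (q : K) := by simp
    have h2 : ∑ i ∈ Finset.range q, (x - x ^ (2 ^ j)) ^ (2 ^ (j * i)) = 0 := by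
      have h3 : ∀ i, (x - x ^ (2 ^ j)) ^ (2 ^ (j * i)) = x ^ (2 ^ (j * i)) - x ^ (2 ^ (j * (i + 1))) := by
        intro i
        rw [sub_pow_char_pow, ← pow_mul, ← pow_add]
        congr 3
        ring
      rw [Finset.sum_congr rfl (fun i _ => h3 i), Finset.sum_range_sub']
      rw [mul_zero, pow_zero, pow_one, pow_two_pow_of_dvd hcard (Dvd.intro_left j rfl), sub_self]
    rw [hx, h1] at h2
    have h3 : (2 : ℕ) ∣ q := (CharP.cast_eq_zero_iff K 2 q).mp h2
    exact hodd.not_two_dvd_nat h3
  by_cases hc : c ∈ L.range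
  · obtain ⟨y, hy⟩ := hc
    rw [hL] at hy
    refine ⟨-y, 0, by simp, ?_⟩
    have : (-y) ^ (2 ^ j) = -(y ^ (2 ^ j)) := by
      have := map_neg F y
      rwa [hF, hF] at this
    rw [this, ← hy]; ring
  · have h1 : c - 1 ∈ L.range := by
      have h2 := AddSubgroup.add_mem_iff_of_index_two hidx (a := c) (b := -1)
      rw [sub_eq_add_neg, h2]
      constructor
      · intro h; exact absurd h hc
      · intro h
        exact absurd (by simpa using L.range.neg_mem h) hone
    obtain ⟨y, hy⟩ := h1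
    rw [hL] at hy
    refine ⟨-y, 1, by simp, ?_⟩
    have : (-y) ^ (2 ^ j) = -(y ^ (2 ^ j)) := by
      have := map_neg F y
      rwa [hF, hF] at this
    rw [this]
    linear_combination -hy

end

end Pool.Agent.Helper41.Isbell
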