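import Pool.Agent.Helper41_Isbell.Nilp

namespace Pool.Agent.Helper41.Isbell

open MulAction
open scoped commutatorElement

section step

variable {G : Type*} [Group G] [Finite G]

/-- Orbits of a normal subgroup `N` on `G ⧸ K` have size `[K ⊔ N : K]`. -/
theorem ncard_orbit_quotient (K N : Subgroup G) [hN : N.Normal] (x : G ⧸ K) :
    (orbit N x).ncard * (K ⊔ N).index = K.index := by
  -- reduce to the base point
  have hbase : ∀ g : G, (orbit N (g • ((1 : G) : G ⧸ K))).ncard =
      (orbit N ((1 : G) : G ⧸ K)).ncard := by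
    intro g
    exact ncard_orbit_normal N g _
  obtain ⟨g, rfl⟩ := QuotientGroup.mk_surjective x
  have hg : ((g : G) : G ⧸ K) = g • ((1 : G) : G ⧸ K) := by
    rw [MulAction.Quotient.smul_coe]
    simp
  rw [hg, hbase]
  have h1 : Nat.card N = (orbit N ((1 : G) : G ⧸ K)).ncard *
      Nat.card (stabilizer N ((1 : G) : G ⧸ K)) := by
    have h := Nat.card_congr (MulAction.orbitProdStabilizerEquivGroup N ((1 : G) : G ⧸ K))
    rw [Nat.card_prod] at h
    rw [← h]
    rfl
  have h2 : Nat.card (stabilizer N ((1 : G) : G ⧸ K)) = Nat.card (N ⊓ K : Subgroup G) := by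
    apply Nat.card_congr
    refine ⟨fun z => ⟨z.1.1, ?_⟩, fun z => ⟨⟨z.1, z.2.1⟩, ?_⟩, fun z => rfl, fun z => rfl⟩
    · refine ⟨z.1.2, ?_⟩
      have hz := z.2
      rw [mem_stabilizer_iff] at hz
      have hz' : ((z.1.1 * 1 : G) : G ⧸ K) = ((1 : G) : G ⧸ K) := hz
      rw [mul_one] at hz'
      rw [QuotientGroup.eq] at hz'
      have := K.inv_mem hz'
      simpa using this
    · rw [mem_stabilizer_iff]
      change ((z.1 * 1 : G) : G ⧸ K) = ((1 : G) : G ⧸ K)
      rw [mul_one, QuotientGroup.eq]
      simpa using K.inv_mem z.2.2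
  -- |K ⊔ N| * |N ⊓ K| = |K| * |N|
  have h3 : Nat.card (K ⊔ N : Subgroup G) * Nat.card (N ⊓ K : Subgroup G)
      = Nat.card K * Nat.card N := by
    have e1 : N.relIndex (K ⊔ N) = N.relIndex K := Subgroup.relIndex_sup_right K N
    have e2 : Nat.card N * N.relIndex (K ⊔ N) = Nat.card (K ⊔ N : Subgroup G) := by
      have := Subgroup.relIndex_mul_relIndex (⊥ : Subgroup G) N (K ⊔ N) bot_le le_sup_right
      rwa [Subgroup.relIndex_bot_left, Subgroup.relIndex_bot_left] at this
    have e3 : Nat.card (N ⊓ K : Subgroup G) * N.relIndex K = Nat.card K := by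
      have := Subgroup.relIndex_mul_relIndex (⊥ : Subgroup G) (N ⊓ K) K bot_le inf_le_right
      rwa [Subgroup.relIndex_bot_left, Subgroup.relIndex_bot_left,
        Subgroup.inf_relIndex_right] at this
    rw [← e2, e1, ← e3]; ring
  have h4 := Subgroup.card_mul_index K
  have h5 := Subgroup.card_mul_index (K ⊔ N)
  rw [h2] at h1
  set o := (orbit N ((1 : G) : G ⧸ K)).ncard
  set nN := Nat.card N
  set nK := Nat.card K
  set nI := Nat.card (N ⊓ K : Subgroup G)
  set nS := Nat.card (K ⊔ N : Subgroup G)
  have hI : 0 < nI := Nat.card_pos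
  have hK : 0 < nK := Nat.card_pos
  -- nN = o * nI ; nS * nI = nK * nN ; so nS = nK * o
  have h6 : nS = nK * o := by
    have : nS * nI = (nK * o) * nI := by rw [h3, h1]; ring
    exact Nat.eq_of_mul_eq_mul_right hI this
  have h7 : nK * (o * (K ⊔ N).index) = nK * K.index := by
    rw [h4, ← h5, h6]; ring
  exact Nat.eq_of_mul_eq_mul_left hK h7

/-- Step: see the file docstring. -/
theorem step (K N N' S : Subgroup G) [hN : N.Normal] [hN' : N'.Normal] (hN'K : N' ≤ K)
    (hSN : S ≤ N) (hS2 : IsPGroup 2 S) (hodd : ¬ 2 ∣ S.relIndex N) (c : ℕ)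
    (hlcs : S.lowerCentralSeries c ≤ N')
    (hfix : ∀ g : G, (∃ k, orderOf g = 2 ^ k) → ∃ x : G ⧸ K, g • x = x) (s t : ℕ)
    (hst : K.index = (K ⊔ N).index * (2 ^ s * t)) :
    2 ^ s ≤ ((K ⊔ N).index * t) ^ (2 ^ c - 1) := by
  classical
  by_contra hcon
  push Not at hcon
  have hKpos : 0 < K.index := Nat.pos_of_ne_zero K.index_ne_zero_of_finite
  have hKNpos : 0 < (K ⊔ N).index := Nat.pos_of_ne_zero (K ⊔ N).index_ne_zero_of_finite
  -- every S-orbit has size divisible by 2 ^ s
  have horb : ∀ x : G ⧸ K, 2 ^ s ∣ (orbit S x).ncard := by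
    intro x
    have hNo := ncard_orbit_quotient K N x
    have hr : (orbit N x).ncard = 2 ^ s * t := by
      apply Nat.eq_of_mul_eq_mul_right hKNpos
      rw [hNo, hst]; ring
    have h1 : Nat.card N = (orbit N x).ncard * Nat.card (stabilizer N x) := by
      have h := Nat.card_congr (MulAction.orbitProdStabilizerEquivGroup N x)
      rw [Nat.card_prod] at h
      rw [← h]
      rfl
    have h2 : Nat.card S = (orbit S x).ncard * Nat.card (stabilizer S x) := by
      have h := Nat.card_congr (MulAction.orbitProdStabilizerEquivGroup S x)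
      rw [Nat.card_prod] at h
      rw [← h]
      rfl
    have h3 : Nat.card (stabilizer S x) ∣ Nat.card (stabilizer N x) := by
      let f : stabilizer S x →* stabilizer N x :=
        { toFun := fun z => ⟨⟨z.1.1, hSN z.1.2⟩, by
            have hz := z.2
            rw [mem_stabilizer_iff] at hz ⊢
            exact hz⟩
          map_one' := rfl
          map_mul' := fun _ _ => rfl }
      have hf : Function.Injective f := by
        intro z z' h
        apply Subtype.ext
        apply Subtype.ext
        exact congrArg (fun w => w.1.1) h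
      exact Subgroup.card_dvd_of_injective f hf
    obtain ⟨l, hl⟩ := h3
    have h4 : Nat.card S * S.relIndex N = Nat.card N := by
      have := Subgroup.relIndex_mul_relIndex (⊥ : Subgroup G) S N bot_le hSN
      rwa [Subgroup.relIndex_bot_left, Subgroup.relIndex_bot_left] at this
    have hpos : 0 < Nat.card (stabilizer S x) := Nat.card_pos
    have h5 : (orbit S x).ncard * S.relIndex N = 2 ^ s * (t * l) := by
      apply Nat.eq_of_mul_eq_mul_right hpos
      calc (orbit S x).ncard * S.relIndex N * Nat.card (stabilizer S x)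
          = Nat.card S * S.relIndex N := by rw [h2]; ring
        _ = Nat.card N := h4
        _ = 2 ^ s * t * (Nat.card (stabilizer S x) * l) := by rw [h1, hr, hl]
        _ = _ := by ring
    have hcop : Nat.Coprime (2 ^ s) (S.relIndex N) := by
      apply Nat.Coprime.pow_left
      rw [Nat.Prime.coprime_iff_not_dvd Nat.prime_two]
      exact hodd
    exact hcop.dvd_of_dvd_mul_right ⟨t * l, h5⟩
  -- number of S-orbits
  have hXcard : Nat.card (G ⧸ K) = K.index := rfl
  have hk : Nat.card (orbitRel.Quotient S (G ⧸ K)) ≤ (K ⊔ N).index * t := by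
    have : Fintype (G ⧸ K) := Fintype.ofFinite _
    have : Fintype (orbitRel.Quotient S (G ⧸ K)) := Fintype.ofFinite _
    have e1 : Nat.card (G ⧸ K) = ∑ q : orbitRel.Quotient S (G ⧸ K), (orbit S q.out).ncard := by
      have h := Nat.card_congr (MulAction.selfEquivSigmaOrbits S (G ⧸ K))
      rw [h, Nat.card_sigma]
      rfl
    have e2 : Nat.card (orbitRel.Quotient S (G ⧸ K)) * 2 ^ s ≤ Nat.card (G ⧸ K) := by
      rw [e1, Nat.card_eq_fintype_card, ← Finset.card_univ, ← smul_eq_mul, ← Finset.sum_const]
      apply Finset.sum_le_sum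
      intro q _
      apply Nat.le_of_dvd _ (horb _)
      rw [Set.ncard_pos]; exact ⟨_, mem_orbit_self _⟩
    rw [hXcard, hst] at e2
    have hs : 0 < 2 ^ s := by positivity
    apply Nat.le_of_mul_le_mul_right _ hs
    calc _ ≤ _ := e2
      _ = _ := by ring
  -- central chain
  let Z : ℕ → Subgroup S := fun j => (⊤ : Subgroup S).lowerCentralSeries (c - j)
  obtain ⟨g, hg⟩ := exists_fpf_of_central_chain (S := S) (X := G ⧸ K) c Z
    (fun j => by
      have : ((⊤ : Subgroup S).lowerCentralSeries (c - j)).Characteristic := inferInstance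
      exact Subgroup.normal_of_characteristic _)
    (by
      intro z hz x
      have hz1 : (z : G) ∈ S.lowerCentralSeries c := by
        rw [← Subgroup.top_subtype_lowerCentralSeries]
        exact ⟨z, by simpa [Z] using hz, rfl⟩
      obtain ⟨g, rfl⟩ := QuotientGroup.mk_surjective x
      have hz2 : (z : G) ∈ N' := hlcs hz1
      have hz3 : g⁻¹ * (z : G) * g ∈ N' := by
        have := hN'.conj_mem _ hz2 g⁻¹
        simpa using this
      change (((z : G) * g : G) : G ⧸ K) = ((g : G) : G ⧸ K)
      rw [QuotientGroup.eq]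
      have := K.inv_mem (hN'K hz3)
      simpa [mul_assoc] using this)
    (by simp [Z])
    (by
      intro j hj
      apply Subgroup.lowerCentralSeries_antitone
      omega)
    (by
      intro j hj z hz g
      have h1 : c - j = (c - (j + 1)) + 1 := by omega
      change ⁅z, g⁆ ∈ (⊤ : Subgroup S).lowerCentralSeries (c - j)
      rw [h1, Subgroup.lowerCentralSeries_succ]
      exact Subgroup.commutator_mem_commutator hz (Subgroup.mem_top g))
    ((K ⊔ N).index * t) (2 ^ s) hk
    (by
      intro x
      apply Nat.le_of_dvd _ (horb _)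
      rw [Set.ncard_pos]; exact ⟨_, mem_orbit_self _⟩)
    hcon
  -- g is a 2-element
  obtain ⟨n, hn⟩ := (IsPGroup.iff_orderOf.mp hS2) g
  obtain ⟨x, hx⟩ := hfix (g : G) ⟨n, by rw [← hn]; exact Subgroup.orderOf_coe g⟩
  exact hg x hx

/-- The main induction on the length of the normal series. -/
theorem index_bound (H : Subgroup G)
    (hfix : ∀ g : G, (∃ k, orderOf g = 2 ^ k) → ∃ x : G ⧸ H, g • x = x)
    (a b c d : ℕ) (hb : Odd b) (hab : H.index = 2 ^ a * b)
    (N : ℕ → Subgroup G) (hN : ∀ i, (N i).Normal) (h0 : N 0 = ⊥) (hd : N d = ⊤)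
    (hmono : ∀ i < d, N i ≤ N (i + 1)) (P : Sylow 2 G)
    (hP : ∀ i < d, ((P : Subgroup G) ⊓ N (i + 1)).lowerCentralSeries c ≤ N i) :
    2 ^ a * b ≤ b ^ (2 ^ (c * d)) := by
  classical
  have hbpos : 0 < b := hb.pos
  have key : ∀ r : ℕ, r ≤ d → ∀ e b' : ℕ, Odd b' → (H ⊔ N (d - r)).index = 2 ^ e * b' →
      2 ^ e * b ≤ b ^ ((2 ^ c) ^ r) := by
    intro r
    induction r with
    | zero =>
      intro _ e b' hb' h
      rw [Nat.sub_zero, hd, sup_top_eq, Subgroup.index_top] at h
      have : 2 ^ e = 1 := Nat.eq_one_of_mul_eq_one_right h.symm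
      rw [this]; simp
    | succ r ih =>
      intro hr e b' hb' h
      set i := d - (r + 1) with hi
      have hid : i < d := by omega
      have hi1 : d - r = i + 1 := by omega
      haveI := hN i
      haveI := hN (i + 1)
      have hsup : (H ⊔ N i) ⊔ N (i + 1) = H ⊔ N (i + 1) := by
        rw [sup_assoc, sup_eq_right.mpr (hmono i hid)]
      obtain ⟨e1, b1, hb1, h1⟩ := Nat.exists_eq_two_pow_mul_odd
        (H ⊔ N (i + 1)).index_ne_zero_of_finite
      have hle : H ⊔ N i ≤ H ⊔ N (i + 1) := sup_le_sup_left (hmono i hid) _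
      have hmul := Subgroup.relIndex_mul_index hle
      have hrne : (H ⊔ N i).relIndex (H ⊔ N (i + 1)) ≠ 0 := by
        intro h0
        rw [h0, zero_mul] at hmul
        exact (H ⊔ N i).index_ne_zero_of_finite hmul.symm
      obtain ⟨s, t, ht, hrst⟩ := Nat.exists_eq_two_pow_mul_odd hrne
      -- compare odd and even parts
      have hcomp : 2 ^ e * b' = 2 ^ (e1 + s) * (b1 * t) := by
        rw [← h, ← hmul, hrst, h1, pow_add]; ring
      have hodd2 : Odd (b1 * t) := hb1.mul ht
      have hee : e = e1 + s := by
        have h2 : padicValNat 2 (2 ^ e * b') = e := by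
          rw [padicValNat.mul (by positivity) hb'.pos.ne', padicValNat.prime_pow,
            padicValNat.eq_zero_of_not_dvd hb'.not_two_dvd_nat, add_zero]
        have h3 : padicValNat 2 (2 ^ (e1 + s) * (b1 * t)) = e1 + s := by
          rw [padicValNat.mul (by positivity) hodd2.pos.ne', padicValNat.prime_pow,
            padicValNat.eq_zero_of_not_dvd hodd2.not_two_dvd_nat, add_zero]
        rw [← h2, hcomp, h3]
      have hbb : b' = b1 * t := by
        rw [hee] at hcomp
        exact Nat.eq_of_mul_eq_mul_left (by positivity) hcomp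
      -- apply the step
      have hPodd : ¬ 2 ∣ ((P : Subgroup G) ⊓ N (i + 1)).relIndex (N (i + 1)) := by
        rw [Subgroup.inf_relIndex_right]
        intro h2
        have : (P : Subgroup G).relIndex (N (i + 1)) ∣ (P : Subgroup G).index := by
          have hh := Subgroup.relIndex_sup_right (P : Subgroup G) (N (i + 1))
          -- [N : P ⊓ N] = [P ⊔ N : P]
          have hcards : (P : Subgroup G).relIndex (N (i + 1)) =
              (P : Subgroup G).relIndex ((P : Subgroup G) ⊔ N (i + 1)) := by
            have e2 : Nat.card (N (i + 1)) * (N (i + 1)).relIndex ((P : Subgroup G) ⊔ N (i + 1))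
                = Nat.card ((P : Subgroup G) ⊔ N (i + 1) : Subgroup G) := by
              have := Subgroup.relIndex_mul_relIndex (⊥ : Subgroup G) (N (i + 1))
                ((P : Subgroup G) ⊔ N (i + 1)) bot_le le_sup_right
              rwa [Subgroup.relIndex_bot_left, Subgroup.relIndex_bot_left] at this
            have e3 : Nat.card (P : Subgroup G) *
                (P : Subgroup G).relIndex ((P : Subgroup G) ⊔ N (i + 1))
                = Nat.card ((P : Subgroup G) ⊔ N (i + 1) : Subgroup G) := by
              have := Subgroup.relIndex_mul_relIndex (⊥ : Subgroup G) (P : Subgroup G)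
                ((P : Subgroup G) ⊔ N (i + 1)) bot_le le_sup_left
              rwa [Subgroup.relIndex_bot_left, Subgroup.relIndex_bot_left] at this
            have e4 : Nat.card ((P : Subgroup G) ⊓ N (i + 1) : Subgroup G) *
                (N (i + 1)).relIndex (P : Subgroup G) = Nat.card (P : Subgroup G) := by
              have := Subgroup.relIndex_mul_relIndex (⊥ : Subgroup G)
                ((P : Subgroup G) ⊓ N (i + 1)) (P : Subgroup G) bot_le inf_le_left
              rwa [Subgroup.relIndex_bot_left, Subgroup.relIndex_bot_left,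
                Subgroup.inf_relIndex_left] at this
            have e5 : Nat.card ((P : Subgroup G) ⊓ N (i + 1) : Subgroup G) *
                (P : Subgroup G).relIndex (N (i + 1)) = Nat.card (N (i + 1)) := by
              have := Subgroup.relIndex_mul_relIndex (⊥ : Subgroup G)
                ((P : Subgroup G) ⊓ N (i + 1)) (N (i + 1)) bot_le inf_le_right
              rwa [Subgroup.relIndex_bot_left, Subgroup.relIndex_bot_left,
                Subgroup.inf_relIndex_right] at this
            have hp1 : 0 < Nat.card (P : Subgroup G) := Nat.card_pos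
            have hp2 : 0 < Nat.card ((P : Subgroup G) ⊓ N (i + 1) : Subgroup G) := Nat.card_pos
            rw [hh] at e2
            apply Nat.eq_of_mul_eq_mul_left hp1
            apply Nat.eq_of_mul_eq_mul_left hp2
            calc Nat.card ((P : Subgroup G) ⊓ N (i + 1) : Subgroup G) *
                  (Nat.card (P : Subgroup G) * (P : Subgroup G).relIndex (N (i + 1)))
                = Nat.card (P : Subgroup G) *
                  (Nat.card ((P : Subgroup G) ⊓ N (i + 1) : Subgroup G) *
                    (P : Subgroup G).relIndex (N (i + 1))) := by ring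
              _ = Nat.card (P : Subgroup G) * Nat.card (N (i + 1)) := by rw [e5]
              _ = (Nat.card ((P : Subgroup G) ⊓ N (i + 1) : Subgroup G) *
                (N (i + 1)).relIndex (P : Subgroup G)) * Nat.card (N (i + 1)) := by rw [e4]
              _ = Nat.card ((P : Subgroup G) ⊓ N (i + 1) : Subgroup G) *
                (Nat.card (N (i + 1)) * (N (i + 1)).relIndex (P : Subgroup G)) := by ring
              _ = _ := by rw [e2, e3]
          rw [hcards]
          exact Subgroup.relIndex_dvd_index_of_le le_sup_left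
        exact P.not_dvd_index (h2.trans this)
      have hstep := step (H ⊔ N i) (N (i + 1)) (N i) ((P : Subgroup G) ⊓ N (i + 1)) le_sup_right
        inf_le_right (P.2.to_le inf_le_left) hPodd c (hP i hid)
        (by
          intro g hg
          obtain ⟨x, hx⟩ := hfix g hg
          obtain ⟨y, rfl⟩ := QuotientGroup.mk_surjective x
          refine ⟨((y : G) : G ⧸ (H ⊔ N i)), ?_⟩
          have hx' : ((g * y : G) : G ⧸ H) = ((y : G) : G ⧸ H) := hx
          change ((g * y : G) : G ⧸ (H ⊔ N i)) = ((y : G) : G ⧸ (H ⊔ N i))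
          rw [QuotientGroup.eq] at hx' ⊢
          exact (le_sup_left : H ≤ H ⊔ N i) hx')
        s t (by rw [hsup, ← hmul, hrst]; ring)
      rw [hsup, h1] at hstep
      -- b' ≤ b
      have hb'b : b' ≤ b := by
        have h2 : (H ⊔ N i).index ∣ H.index := Subgroup.index_dvd_of_le le_sup_left
        rw [h, hab] at h2
        have h3 : b' ∣ 2 ^ a * b := (Dvd.intro_left _ rfl).trans h2
        have h4 : Nat.Coprime b' (2 ^ a) := by
          apply Nat.Coprime.pow_right
          exact Nat.Coprime.symm ((Nat.Prime.coprime_iff_not_dvd Nat.prime_two).mpr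
            hb'.not_two_dvd_nat)
        exact Nat.le_of_dvd hbpos (h4.dvd_of_dvd_mul_left h3)
      have ih' := ih (by omega) e1 b1 hb1 (by rw [hi1]; exact h1)
      have hc1 : 0 < 2 ^ c := by positivity
      calc 2 ^ e * b = 2 ^ s * (2 ^ e1 * b) := by rw [hee, pow_add]; ring
        _ ≤ (2 ^ e1 * b1 * t) ^ (2 ^ c - 1) * (2 ^ e1 * b) := Nat.mul_le_mul_right _ hstep
        _ ≤ (2 ^ e1 * b) ^ (2 ^ c - 1) * (2 ^ e1 * b) := by
            apply Nat.mul_le_mul_right
            apply Nat.pow_le_pow_left
            calc 2 ^ e1 * b1 * t = 2 ^ e1 * b' := by rw [hbb]; ring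
              _ ≤ 2 ^ e1 * b := Nat.mul_le_mul_left _ hb'b
        _ = (2 ^ e1 * b) ^ (2 ^ c) := by
            rw [← pow_succ]
            congr 1
            omega
        _ ≤ (b ^ ((2 ^ c) ^ r)) ^ (2 ^ c) := Nat.pow_le_pow_left ih' _
        _ = b ^ ((2 ^ c) ^ (r + 1)) := by rw [← pow_mul, ← pow_succ]
  have := key d le_rfl a b hb (by rw [Nat.sub_self, h0, sup_bot_eq]; exact hab)
  rwa [← pow_mul] at this

end step

end Pool.Agent.Helper41.Isbell
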