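import Mathlib

/-!
# Conjugacy in a ring with a skew uniformizer

`R` is a ring, `Φ : R →+* R`, `π : R` with `π * s = Φ s * π`, and `ι : K →+* R` with `Φ (ι a) = ι (a ^ 2)`.
-/

namespace Pool.Agent.Helper41.Isbell

/-- Data of a truncated skew power series ring over `K` with respect to the Frobenius. -/
structure SkewData (K R : Type*) [Field K] [Ring R] where
  /-- the endomorphism induced by the uniformizer -/
  Φ : R →+* R
  /-- the uniformizer -/
  π : R
  /-- the inclusion of the coefficient field -/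
  ι : K →+* R
  comm : ∀ s, π * s = Φ s * π
  Φπ : Φ π = π
  Φι : ∀ a, Φ (ι a) = ι (a ^ 2)
  dec : ∀ s, ∃ c s', s = ι c + s' * π

namespace SkewData

variable {K R : Type*} [Field K] [Ring R] (D : SkewData K R)

theorem pow_comm (m : ℕ) (s : R) : D.π ^ m * s = (D.Φ^[m] s) * D.π ^ m := by
  induction m generalizing s with
  | zero => simp
  | succ m ih =>
    rw [pow_succ, mul_assoc, D.comm, ← mul_assoc, ih, mul_assoc, Function.iterate_succ_apply]

theorem iter_ι (m : ℕ) (a : K) : D.Φ^[m] (D.ι a) = D.ι (a ^ (2 ^ m)) := by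
  induction m generalizing a with
  | zero => simp
  | succ m ih =>
    rw [Function.iterate_succ_apply, D.Φι, ih, ← pow_mul]
    congr 2
    rw [pow_succ]; ring

theorem iter_π (m : ℕ) : D.Φ^[m] D.π = D.π := by
  induction m with
  | zero => rfl
  | succ m ih => rw [Function.iterate_succ_apply, D.Φπ, ih]

theorem iter_fixed (m : ℕ) {t : R} (ht : D.Φ t = t) : D.Φ^[m] t = t := by
  induction m with
  | zero => rfl
  | succ m ih => rw [Function.iterate_succ_apply, ht, ih]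

theorem comm_pow_of_fixed (m : ℕ) {t : R} (ht : D.Φ t = t) : D.π ^ m * t = t * D.π ^ m := by
  rw [D.pow_comm, D.iter_fixed m ht]

theorem nilp {n : ℕ} (hn : D.π ^ n = 0) (s : R) {k : ℕ} (hk : 0 < k) :
    IsNilpotent (s * D.π ^ k) := by
  have key : ∀ r : ℕ, ∃ s', (s * D.π ^ k) ^ r = s' * D.π ^ (k * r) := by
    intro r
    induction r with
    | zero => exact ⟨1, by simp⟩
    | succ r ih =>
      obtain ⟨s', hs'⟩ := ih
      refine ⟨s' * D.Φ^[k * r] s, ?_⟩
      rw [pow_succ, hs', mul_assoc, ← mul_assoc (D.π ^ (k * r)), D.pow_comm, mul_assoc, mul_assoc,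
        ← pow_add, mul_add, mul_one]
  refine ⟨n, ?_⟩
  obtain ⟨s', hs'⟩ := key n
  rw [hs']
  have : k * n = n + (k - 1) * n := by
    obtain ⟨q, rfl⟩ : ∃ q, k = q + 1 := ⟨k - 1, by omega⟩
    simp; ring
  rw [this, pow_add, hn, zero_mul, mul_zero]

/-- The unit `1 + s π ^ k`. -/
theorem exists_unit {n : ℕ} (hn : D.π ^ n = 0) (s : R) {k : ℕ} (hk : 0 < k) :
    ∃ v : Rˣ, (v : R) = 1 + s * D.π ^ k :=
  (IsNilpotent.isUnit_one_add (D.nilp hn s hk))

/-- Abstract one-step correction: if `v * y' = t' * v + r * π ^ m` then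
`v * y' * v⁻¹ = t' + r' * π ^ m`. -/
theorem conj_of_eq (v : Rˣ) (y' t' r : R) (m : ℕ) (h : v * y' = t' * v + r * D.π ^ m) :
    ∃ r', (v : R) * y' * (↑v⁻¹ : R) = t' + r' * D.π ^ m := by
  refine ⟨r * D.Φ^[m] (↑v⁻¹ : R), ?_⟩
  rw [h, add_mul, mul_assoc t', Units.mul_inv, mul_one, mul_assoc, D.pow_comm, mul_assoc]

/-- **Ramified normal form.** -/
theorem ramified {n j : ℕ} (hn : D.π ^ n = 0)
    (hadd : ∀ c : K, ∃ x e : K, e ^ 2 = e ∧ c + x - x ^ (2 ^ j) = e)
    (y : R) (hy : ∃ s, y = D.π ^ j + s * D.π ^ (j + 1)) :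
    ∀ m, j + 1 ≤ m → ∃ u : Rˣ, ∃ t t' w : R, D.Φ t = t ∧ t = D.π ^ j + t' * D.π ^ (j + 1) ∧
      (u : R) * y * (↑u⁻¹ : R) = t + w * D.π ^ m := by
  intro m hm
  induction m, hm using Nat.le_induction with
  | base =>
    obtain ⟨s, hs⟩ := hy
    refine ⟨1, D.π ^ j, 0, s, by rw [map_pow, D.Φπ], by simp, by simp [hs]⟩
  | succ m hm ih =>
    obtain ⟨u, t, t', w, ht, ht', hu⟩ := ih
    obtain ⟨c, w', hw⟩ := D.dec w
    obtain ⟨x, e, he, hx⟩ := hadd c
    obtain ⟨k, hk⟩ : ∃ k, m = j + k := ⟨m - j, by omega⟩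
    have hk0 : 0 < k := by omega
    obtain ⟨v, hv⟩ := D.exists_unit hn (D.ι x) hk0
    have hstep : (v : R) * (t + w * D.π ^ m) = (t + D.ι e * D.π ^ m) * v +
        (w' + (D.ι x * t' - t' * D.Φ^[j + 1] (D.ι x)) + D.ι x * (D.Φ^[k] w) * D.π ^ (k - 1)
          - D.ι e * D.Φ^[m] (D.ι x) * D.π ^ (k - 1)) * D.π ^ (m + 1) := by
      have hkk : D.π ^ (k - 1) * D.π ^ (m + 1) = D.π ^ (k + m) := by
        rw [← pow_add]; congr 1; omega
      have e1 : D.ι x * D.π ^ k * t = D.ι x * t * D.π ^ k := by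
        rw [mul_assoc, D.comm_pow_of_fixed k ht, mul_assoc]
      have e2 : D.ι x * t * D.π ^ k = D.ι x * D.π ^ m + D.ι x * t' * D.π ^ (m + 1) := by
        rw [ht', mul_add, add_mul, mul_assoc, ← pow_add, ← hk, ← mul_assoc, mul_assoc _ _ (D.π ^ k),
          ← pow_add]
        congr 3
        omega
      have e3 : t * (D.ι x * D.π ^ k) = D.ι (x ^ (2 ^ j)) * D.π ^ m +
          t' * D.Φ^[j + 1] (D.ι x) * D.π ^ (m + 1) := by
        conv_lhs => rw [ht']
        rw [add_mul, ← mul_assoc, D.pow_comm, D.iter_ι, mul_assoc, ← pow_add, ← hk, mul_assoc t',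
          ← mul_assoc (D.π ^ (j + 1)), D.pow_comm, mul_assoc (D.Φ^[j + 1] (D.ι x)), ← pow_add,
          ← mul_assoc]
        congr 3
        omega
      have e4 : D.ι x * D.π ^ k * (w * D.π ^ m) = D.ι x * (D.Φ^[k] w) * D.π ^ (k - 1) *
          D.π ^ (m + 1) := by
        rw [mul_assoc _ (D.π ^ (k - 1)), hkk, mul_assoc (D.ι x), ← mul_assoc (D.π ^ k), D.pow_comm,
          mul_assoc (D.Φ^[k] w), ← pow_add, mul_assoc (D.ι x)]
      have e5 : D.ι e * D.π ^ m * (D.ι x * D.π ^ k) = D.ι e * D.Φ^[m] (D.ι x) * D.π ^ (k - 1) *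
          D.π ^ (m + 1) := by
        rw [mul_assoc _ (D.π ^ (k - 1)), hkk, mul_assoc (D.ι e), ← mul_assoc (D.π ^ m), D.pow_comm,
          mul_assoc (D.Φ^[m] (D.ι x)), ← pow_add, mul_assoc (D.ι e), add_comm m k]
      have e6 : w * D.π ^ m = D.ι c * D.π ^ m + w' * D.π ^ (m + 1) := by
        rw [hw, add_mul, mul_assoc w', ← pow_succ']
      have e7 : D.ι c * D.π ^ m + D.ι x * D.π ^ m - D.ι (x ^ (2 ^ j)) * D.π ^ m = D.ι e * D.π ^ m := by
        rw [← add_mul, ← sub_mul, ← map_add, ← map_sub, hx]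
      rw [hv]
      have lhs : (1 + D.ι x * D.π ^ k) * (t + w * D.π ^ m) = t + w * D.π ^ m +
          D.ι x * D.π ^ k * t + D.ι x * D.π ^ k * (w * D.π ^ m) := by
        noncomm_ring
      have rhs : (t + D.ι e * D.π ^ m) * (1 + D.ι x * D.π ^ k) = t + D.ι e * D.π ^ m +
          t * (D.ι x * D.π ^ k) + D.ι e * D.π ^ m * (D.ι x * D.π ^ k) := by
        noncomm_ring
      rw [lhs, rhs, e1, e2, e3, e4, e5, e6, ← e7]
      simp only [add_mul, sub_mul]
      abel
    obtain ⟨r', hr'⟩ := D.conj_of_eq v _ _ _ _ hstep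
    refine ⟨v * u, t + D.ι e * D.π ^ m, t' + D.ι e * D.π ^ (k - 1), r', ?_, ?_, ?_⟩
    · rw [map_add, ht, map_mul, D.Φι, he, map_pow, D.Φπ]
    · rw [add_mul, ← add_assoc, ← ht', mul_assoc, ← pow_add]
      congr 3
      omega
    · rw [Units.val_mul, mul_inv_rev, Units.val_mul, ← hr', ← hu]
      noncomm_ring

/-- **Unramified normal form.** -/
theorem unramified {n j q : ℕ} (hn : D.π ^ n = 0) (hq : ∀ m, q ∣ m → ∀ x : K, x ^ (2 ^ m) = x)
    (hqj : q ∣ j) (a : K) (ha : ∀ k, ¬ q ∣ k → a ^ (2 ^ k) ≠ a)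
    (y : R) (hy : ∃ s, y = D.ι a * D.π ^ j + s * D.π ^ (j + 1)) :
    ∀ m, j + 1 ≤ m → ∃ u : Rˣ, ∃ t t' w : R, (∀ b, t * D.ι b = D.ι b * t) ∧
      t = D.ι a * D.π ^ j + t' * D.π ^ (j + 1) ∧
      (u : R) * y * (↑u⁻¹ : R) = t + w * D.π ^ m := by
  intro m hm
  induction m, hm using Nat.le_induction with
  | base =>
    obtain ⟨s, hs⟩ := hy
    refine ⟨1, D.ι a * D.π ^ j, 0, s, ?_, by simp, by simp [hs]⟩
    intro b
    rw [mul_assoc, D.pow_comm, D.iter_ι, hq j hqj, ← mul_assoc, ← map_mul, mul_comm a b, map_mul,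
      mul_assoc]
  | succ m hm ih =>
    obtain ⟨u, t, t', w, ht, ht', hu⟩ := ih
    obtain ⟨c, w', hw⟩ := D.dec w
    obtain ⟨k, hk⟩ : ∃ k, m = j + k := ⟨m - j, by omega⟩
    have hk0 : 0 < k := by omega
    by_cases hqm : q ∣ m
    · refine ⟨u, t + D.ι c * D.π ^ m, t' + D.ι c * D.π ^ (k - 1), w', ?_, ?_, ?_⟩
      · intro b
        rw [add_mul, mul_add, ht b]
        congr 1
        rw [mul_assoc, D.pow_comm, D.iter_ι, hq m hqm, ← mul_assoc, ← map_mul, mul_comm c b,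
          map_mul, mul_assoc]
      · rw [add_mul, ← add_assoc, ← ht', mul_assoc, ← pow_add]
        congr 3
        omega
      · rw [hu, hw, add_mul, add_assoc, mul_assoc w', ← pow_succ']
    · have hqk : ¬ q ∣ k := fun h => hqm (by rw [hk]; exact dvd_add hqj h)
      have hne : a ^ (2 ^ k) - a ≠ 0 := sub_ne_zero.mpr (ha k hqk)
      obtain ⟨x, hx⟩ : ∃ x : K, c + x * a ^ (2 ^ k) - x * a = 0 := by
        refine ⟨-c / (a ^ (2 ^ k) - a), ?_⟩
        field_simp
        ring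
      obtain ⟨v, hv⟩ := D.exists_unit hn (D.ι x) hk0
      have hstep : (v : R) * (t + w * D.π ^ m) = t * v +
          (w' + D.ι x * D.Φ^[k] t' - D.ι x * t' + D.ι x * (D.Φ^[k] w) * D.π ^ (k - 1)) *
            D.π ^ (m + 1) := by
        have hkk : D.π ^ (k - 1) * D.π ^ (m + 1) = D.π ^ (k + m) := by
          rw [← pow_add]; congr 1; omega
        have e1 : D.ι x * D.π ^ k * t = D.ι (x * a ^ (2 ^ k)) * D.π ^ m +
            D.ι x * D.Φ^[k] t' * D.π ^ (m + 1) := by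
          conv_lhs => rw [ht']
          rw [mul_add, mul_assoc (D.ι x), ← mul_assoc (D.π ^ k), D.pow_comm, D.iter_ι,
            mul_assoc (D.ι (a ^ 2 ^ k)), ← pow_add, ← mul_assoc (D.ι x), ← map_mul,
            mul_assoc (D.ι x) (D.π ^ k) (t' * _), ← mul_assoc (D.π ^ k), D.pow_comm,
            mul_assoc (D.Φ^[k] t'), ← pow_add, ← mul_assoc (D.ι x)]
          congr 3
          · omega
          · omega
        have e2 : t * (D.ι x * D.π ^ k) = D.ι (x * a) * D.π ^ m + D.ι x * t' * D.π ^ (m + 1) := by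
          rw [← mul_assoc, ht x]
          conv_lhs => rw [ht']
          rw [mul_add, add_mul, ← mul_assoc (D.ι x), ← map_mul, mul_assoc _ (D.π ^ j), ← pow_add,
            ← hk, ← mul_assoc (D.ι x), mul_assoc (D.ι x * t'), ← pow_add]
          congr 3
          omega
        have e4 : D.ι x * D.π ^ k * (w * D.π ^ m) = D.ι x * (D.Φ^[k] w) * D.π ^ (k - 1) *
            D.π ^ (m + 1) := by
          rw [mul_assoc _ (D.π ^ (k - 1)), hkk, mul_assoc (D.ι x), ← mul_assoc (D.π ^ k), D.pow_comm,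
            mul_assoc (D.Φ^[k] w), ← pow_add, mul_assoc (D.ι x)]
        have e6 : w * D.π ^ m = D.ι c * D.π ^ m + w' * D.π ^ (m + 1) := by
          rw [hw, add_mul, mul_assoc w', ← pow_succ']
        have e7 : D.ι c * D.π ^ m + D.ι (x * a ^ (2 ^ k)) * D.π ^ m = D.ι (x * a) * D.π ^ m := by
          rw [← add_mul, ← map_add]
          congr 2
          linear_combination hx
        rw [hv]
        have lhs : (1 + D.ι x * D.π ^ k) * (t + w * D.π ^ m) = t + w * D.π ^ m +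
            D.ι x * D.π ^ k * t + D.ι x * D.π ^ k * (w * D.π ^ m) := by
          noncomm_ring
        have rhs : t * (1 + D.ι x * D.π ^ k) = t + t * (D.ι x * D.π ^ k) := by
          noncomm_ring
        rw [lhs, rhs, e1, e2, e4, e6, ← e7]
        simp only [add_mul, sub_mul]
        abel
      obtain ⟨r', hr'⟩ := D.conj_of_eq v _ _ _ _ hstep
      refine ⟨v * u, t, t', r', ht, ht', ?_⟩
      rw [Units.val_mul, mul_inv_rev, Units.val_mul, ← hr', ← hu]
      noncomm_ring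

/-- Scaling the leading coefficient to `1`. -/
theorem scale {j : ℕ} (a l : K) (hl : l ≠ 0) (h : l * a * (l⁻¹) ^ (2 ^ j) = 1) (y s : R)
    (hy : y = D.ι a * D.π ^ j + s * D.π ^ (j + 1)) :
    ∃ u : Rˣ, (u : R) = D.ι l ∧ ∃ s', (u : R) * y * (↑u⁻¹ : R) = D.π ^ j + s' * D.π ^ (j + 1) := by
  let u : Rˣ := Units.map (D.ι : K →* R) (Units.mk0 l hl)
  have hu : (u : R) = D.ι l := rfl
  have hui : (↑u⁻¹ : R) = D.ι l⁻¹ := rfl
  refine ⟨u, hu, D.ι l * s * D.Φ^[j + 1] (D.ι l⁻¹), ?_⟩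
  rw [hu, hui, hy, mul_add, add_mul, ← mul_assoc (D.ι l), mul_assoc _ (D.π ^ j), D.pow_comm,
    D.iter_ι, ← mul_assoc (D.ι l), mul_assoc _ (D.π ^ (j + 1)), D.pow_comm, ← mul_assoc, ← mul_assoc,
    ← map_mul, ← map_mul, h, map_one, one_mul]

end SkewData

end Pool.Agent.Helper41.Isbell
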