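import Mathlib

/-!
# The truncated skew polynomial ring `K[π; Frob] / (π ^ n)` as a ring of twisted Toeplitz matrices

`K` is a field of characteristic 2.  `tw K n` is the subring of `n × n` matrices `M` over `K` with
`S * M = M^σ * S`, where `S` is the nilpotent shift matrix and `σ` is the Frobenius.
-/

namespace Pool.Agent.Helper41.Isbell

section

variable (K : Type) [Field K] [CharP K 2] (n : ℕ) [NeZero n]

/-- The nilpotent shift matrix. -/
def shiftM : Matrix (Fin n) (Fin n) K := Matrix.of fun i j => if (j : ℕ) = i + 1 then 1 else 0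

/-- Entrywise Frobenius. -/
def frobM : Matrix (Fin n) (Fin n) K →+* Matrix (Fin n) (Fin n) K := (frobenius K 2).mapMatrix

/-- The ring of twisted Toeplitz matrices. -/
def tw : Subring (Matrix (Fin n) (Fin n) K) where
  carrier := {M | shiftM K n * M = frobM K n M * shiftM K n}
  mul_mem' := by
    intro a b ha hb
    simp only [Set.mem_ofPred_eq] at ha hb ⊢
    rw [← Matrix.mul_assoc, ha, Matrix.mul_assoc, hb, ← Matrix.mul_assoc, map_mul]
  one_mem' := by
    simp only [Set.mem_ofPred_eq]
    rw [map_one, Matrix.mul_one, Matrix.one_mul]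
  add_mem' := by
    intro a b ha hb
    simp only [Set.mem_ofPred_eq] at ha hb ⊢
    rw [Matrix.mul_add, ha, hb, map_add, Matrix.add_mul]
  zero_mem' := by
    simp
  neg_mem' := by
    intro a ha
    simp only [Set.mem_ofPred_eq] at ha ⊢
    rw [Matrix.mul_neg, ha, map_neg, Matrix.neg_mul]

variable {K n}

theorem mem_tw {M : Matrix (Fin n) (Fin n) K} :
    M ∈ tw K n ↔ shiftM K n * M = frobM K n M * shiftM K n := Iff.rfl

theorem shift_mul_apply (M : Matrix (Fin n) (Fin n) K) (i j : Fin n) :
    (shiftM K n * M) i j = if h : (i : ℕ) + 1 < n then M ⟨i + 1, h⟩ j else 0 := by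
  rw [Matrix.mul_apply]
  split_ifs with h
  · rw [Finset.sum_eq_single (⟨i + 1, h⟩ : Fin n)]
    · simp [shiftM]
    · intro b _ hb
      have : (b : ℕ) ≠ i + 1 := fun hh => hb (Fin.ext hh)
      simp [shiftM, this]
    · intro hh; exact absurd (Finset.mem_univ _) hh
  · apply Finset.sum_eq_zero
    intro b _
    have : (b : ℕ) ≠ i + 1 := by have := b.2; omega
    simp [shiftM, this]

theorem mul_shift_apply (M : Matrix (Fin n) (Fin n) K) (i j : Fin n) :
    (M * shiftM K n) i j = if h : 0 < (j : ℕ) then M i ⟨j - 1, by have := j.2; omega⟩ else 0 := by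
  rw [Matrix.mul_apply]
  split_ifs with h
  · rw [Finset.sum_eq_single (⟨j - 1, by have := j.2; omega⟩ : Fin n)]
    · have : (j : ℕ) = (j - 1) + 1 := by omega
      simp [shiftM, ← this]
    · intro b _ hb
      have : (j : ℕ) ≠ b + 1 := by
        intro hh; apply hb; apply Fin.ext; simp; omega
      simp [shiftM, this]
    · intro hh; exact absurd (Finset.mem_univ _) hh
  · apply Finset.sum_eq_zero
    intro b _
    have : (j : ℕ) ≠ b + 1 := by omega
    simp [shiftM, this]

/-- The twisted Toeplitz matrix with first row `c`. -/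
def toep (n : ℕ) (c : ℕ → K) : Matrix (Fin n) (Fin n) K :=
  Matrix.of fun i j => if (i : ℕ) ≤ j then (c (j - i)) ^ (2 ^ (i : ℕ)) else 0

theorem toep_apply (c : ℕ → K) (i j : Fin n) :
    toep n c i j = if (i : ℕ) ≤ j then (c (j - i)) ^ (2 ^ (i : ℕ)) else 0 := rfl

theorem frobM_apply (M : Matrix (Fin n) (Fin n) K) (i j : Fin n) :
    frobM K n M i j = (M i j) ^ 2 := by
  simp [frobM, frobenius_def]

theorem toep_mem (c : ℕ → K) : toep n c ∈ tw K n := by
  rw [mem_tw]
  ext i j
  rw [shift_mul_apply, mul_shift_apply]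
  by_cases h : (i : ℕ) + 1 < n <;> by_cases h' : 0 < (j : ℕ)
  · rw [dif_pos h, dif_pos h', frobM_apply, toep_apply, toep_apply]
    simp only
    by_cases hij : (i : ℕ) + 1 ≤ j
    · rw [if_pos hij, if_pos (by omega), ← pow_mul, ← pow_succ]
      congr 2
      omega
    · rw [if_neg hij, if_neg (by omega)]; simp
  · rw [dif_pos h, dif_neg h', toep_apply]
    simp only
    rw [if_neg (by omega)]
  · rw [dif_neg h, dif_pos h', frobM_apply, toep_apply]
    simp only
    have := j.2
    have := i.2
    rw [if_neg (by omega)]; simp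
  · rw [dif_neg h, dif_neg h']

/-- The first row of a matrix. -/
def row0 (M : Matrix (Fin n) (Fin n) K) : ℕ → K :=
  fun k => if h : k < n then M 0 ⟨k, h⟩ else 0

theorem eq_toep_of_mem {M : Matrix (Fin n) (Fin n) K} (hM : M ∈ tw K n) : M = toep n (row0 M) := by
  rw [mem_tw] at hM
  have hrec : ∀ i j : Fin n, (if h : (i : ℕ) + 1 < n then M ⟨i + 1, h⟩ j else 0) =
      if h : 0 < (j : ℕ) then (M i ⟨j - 1, by have := j.2; omega⟩) ^ 2 else 0 := by
    intro i j
    have := congrFun (congrFun hM i) j
    rw [shift_mul_apply, mul_shift_apply] at this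
    rw [this]
    simp only [frobM_apply]
  have key : ∀ i : ℕ, ∀ hi : i < n, ∀ j : Fin n, M ⟨i, hi⟩ j = toep n (row0 M) ⟨i, hi⟩ j := by
    intro i
    induction i with
    | zero =>
      intro hi j
      rw [toep_apply]
      simp only [Nat.zero_le, if_true, Nat.sub_zero, pow_zero, pow_one, row0, j.2, dif_pos]
      congr 1
    | succ i ih =>
      intro hi j
      have h1 := hrec ⟨i, by omega⟩ j
      simp only at h1
      rw [dif_pos hi] at h1
      rw [h1, toep_apply]
      simp only
      by_cases h' : 0 < (j : ℕ)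
      · rw [dif_pos h', ih (by omega), toep_apply]
        simp only
        by_cases hij : i + 1 ≤ (j : ℕ)
        · rw [if_pos hij, if_pos (by omega), ← pow_mul, ← pow_succ]
          congr 2
          omega
        · rw [if_neg hij, if_neg (by omega)]; simp
      · rw [dif_neg h', if_neg (by omega)]
  ext i j
  exact key i i.2 j

theorem toep_eq_iff (c c' : ℕ → K) : toep n c = toep n c' ↔ ∀ k < n, c k = c' k := by
  constructor
  · intro h k hk
    have := congrFun (congrFun h (0 : Fin n)) ⟨k, hk⟩
    rw [toep_apply, toep_apply] at this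
    simpa using this
  · intro h
    ext i j
    rw [toep_apply, toep_apply]
    have := j.2
    by_cases hij : (i : ℕ) ≤ j
    · rw [if_pos hij, if_pos hij, h _ (by omega)]
    · rw [if_neg hij, if_neg hij]

end

end Pool.Agent.Helper41.Isbell
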