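import Mathlib

/-!
# From abstract transitive actions to permutation groups on `Fin N`
-/

namespace Pool.Agent.Helper41.Isbell

open MulAction

/-- In a finite group, an element of 2-power order of a homomorphic image lifts to an element of
2-power order. -/
theorem lift_two_element {Γ Γ' : Type*} [Group Γ] [Finite Γ] [Group Γ'] (f : Γ →* Γ') (γ : Γ)
    (k : ℕ) (hk : orderOf (f γ) = 2 ^ k) :
    ∃ γ' : Γ, f γ' = f γ ∧ ∃ r, orderOf γ' = 2 ^ r := by
  have hpos : orderOf γ ≠ 0 := (orderOf_pos γ).ne'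
  obtain ⟨r, q, hq, hr⟩ := Nat.exists_eq_two_pow_mul_odd hpos
  have hcop : Nat.Coprime q (orderOf (f γ)) := by
    rw [hk]
    apply Nat.Coprime.pow_right
    exact Nat.Coprime.symm ((Nat.Prime.coprime_iff_not_dvd Nat.prime_two).mpr hq.not_two_dvd_nat)
  obtain ⟨m, hm⟩ := exists_pow_eq_self_of_coprime hcop
  refine ⟨(γ ^ q) ^ m, by rw [map_pow, map_pow, hm], ?_⟩
  have h1 : orderOf ((γ ^ q) ^ m) ∣ 2 ^ r := by
    rw [orderOf_dvd_iff_pow_eq_one, ← pow_mul, mul_comm m, pow_mul, ← pow_mul γ, mul_comm q, ← hr,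
      pow_orderOf_eq_one, one_pow]
  obtain ⟨s, _, hs⟩ := (Nat.dvd_prime_pow Nat.prime_two).mp h1
  exact ⟨s, hs⟩

/-- A transitive action of a finite group on a set with `N` elements in which every element of
2-power order has a fixed point gives a transitive permutation group of degree `N` with the same
property. -/
theorem exists_perm_group {Γ X : Type*} [Group Γ] [Finite Γ] [Finite X] [MulAction Γ X]
    [IsPretransitive Γ X] (N : ℕ) (hN : Nat.card X = N)
    (hfix : ∀ γ : Γ, (∃ k, orderOf γ = 2 ^ k) → ∃ x : X, γ • x = x) :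
    ∃ G : Subgroup (Equiv.Perm (Fin N)), (∀ x y : Fin N, ∃ g ∈ G, g x = y) ∧
      ∀ g ∈ G, (∃ k, orderOf g = 2 ^ k) → ∃ x, g x = x := by
  classical
  have e : X ≃ Fin N := Finite.equivFinOfCardEq hN
  let f : Γ →* Equiv.Perm (Fin N) := (e.permCongrHom.toMonoidHom).comp (MulAction.toPermHom Γ X)
  have hf : ∀ γ y, f γ y = e (γ • e.symm y) := fun γ y => rfl
  refine ⟨f.range, ?_, ?_⟩
  · intro x y
    obtain ⟨γ, hγ⟩ := exists_smul_eq Γ (e.symm x) (e.symm y)
    refine ⟨f γ, ⟨γ, rfl⟩, ?_⟩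
    rw [hf, hγ, Equiv.apply_symm_apply]
  · rintro _ ⟨γ, rfl⟩ ⟨k, hk⟩
    obtain ⟨γ', hγ', hr⟩ := lift_two_element f γ k hk
    obtain ⟨x, hx⟩ := hfix γ' hr
    refine ⟨e x, ?_⟩
    rw [← hγ', hf, Equiv.symm_apply_apply, hx]

end Pool.Agent.Helper41.Isbell
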