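import Pool.Agent.Helper41_Isbell.Toep
import Pool.Agent.Helper41_Isbell.Skew

/-!
# The skew data of the ring of twisted Toeplitz matrices
-/

namespace Pool.Agent.Helper41.Isbell

section

variable (K : Type) [Field K] [CharP K 2] (n : ℕ) [NeZero n]

theorem frobM_shift : frobM K n (shiftM K n) = shiftM K n := by
  ext i j
  rw [frobM_apply]
  simp only [shiftM, Matrix.of_apply]
  split_ifs <;> simp

theorem shift_mem : shiftM K n ∈ tw K n := by
  rw [mem_tw, frobM_shift]

theorem frobM_mem {M : Matrix (Fin n) (Fin n) K} (hM : M ∈ tw K n) : frobM K n M ∈ tw K n := by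
  rw [mem_tw] at hM ⊢
  have := congrArg (frobM K n) hM
  rw [map_mul, map_mul, frobM_shift] at this
  exact this

/-- The embedding of `K` by the diagonal matrices `diag (a, a ^ 2, a ^ 4, ...)`. -/
noncomputable def iotaM : K →+* Matrix (Fin n) (Fin n) K :=
  (Matrix.diagonalRingHom (Fin n) K).comp (RingHom.pi fun i : Fin n => iterateFrobenius K 2 i)

variable {K n}

theorem iotaM_apply (a : K) : iotaM K n a = Matrix.diagonal (fun i : Fin n => a ^ (2 ^ (i : ℕ))) := by
  have h : ∀ i : Fin n, iterateFrobenius K 2 (i : ℕ) a = a ^ (2 ^ (i : ℕ)) :=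
    fun i => iterateFrobenius_def 2 _ _
  have h2 : (fun i : Fin n => iterateFrobenius K 2 (i : ℕ) a) =
      fun i : Fin n => a ^ (2 ^ (i : ℕ)) := funext h
  rw [← h2]
  rfl

theorem iotaM_eq_toep (a : K) : iotaM K n a = toep n (fun k => if k = 0 then a else 0) := by
  rw [iotaM_apply]
  ext i j
  rw [toep_apply, Matrix.diagonal_apply]
  by_cases h : i = j
  · subst h; simp
  · rw [if_neg h]
    have h' : (i : ℕ) ≠ j := fun hh => h (Fin.ext hh)
    by_cases hij : (i : ℕ) ≤ j
    · rw [if_pos hij, if_neg (by omega)]; simp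
    · rw [if_neg hij]

theorem iotaM_mem (a : K) : iotaM K n a ∈ tw K n := by
  rw [iotaM_eq_toep]; exact toep_mem _

theorem dec_aux (M : Matrix (Fin n) (Fin n) K) (hM : M ∈ tw K n) :
    M = iotaM K n (row0 M 0) + toep n (fun k => row0 M (k + 1)) * shiftM K n := by
  conv_lhs => rw [eq_toep_of_mem hM]
  rw [iotaM_eq_toep]
  ext i j
  rw [Matrix.add_apply, mul_shift_apply, toep_apply, toep_apply]
  by_cases hij : (i : ℕ) ≤ j
  · rw [if_pos hij, if_pos hij]
    by_cases h0 : (j : ℕ) - i = 0
    · rw [if_pos h0, h0]
      by_cases hj : 0 < (j : ℕ)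
      · rw [dif_pos hj, toep_apply]
        simp only
        rw [if_neg (by omega), add_zero]
      · rw [dif_neg hj, add_zero]
    · rw [if_neg h0, dif_pos (by omega), toep_apply]
      simp only
      rw [if_pos (by omega)]
      have : (j : ℕ) - 1 - i + 1 = j - i := by omega
      rw [this]; simp
  · rw [if_neg hij, if_neg hij]
    by_cases hj : 0 < (j : ℕ)
    · rw [dif_pos hj, toep_apply]
      simp only
      rw [if_neg (by omega), add_zero]
    · rw [dif_neg hj, add_zero]

variable (K n)

/-- The skew data on the ring of twisted Toeplitz matrices. -/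
noncomputable def twData : SkewData K (tw K n) where
  Φ := (frobM K n).restrict (tw K n) (tw K n) (fun _ h => frobM_mem K n h)
  π := ⟨shiftM K n, shift_mem K n⟩
  ι := (iotaM K n).codRestrict (tw K n) iotaM_mem
  comm := by
    rintro ⟨s, hs⟩
    apply Subtype.ext
    exact hs
  Φπ := by
    apply Subtype.ext
    exact frobM_shift K n
  Φι := by
    intro a
    apply Subtype.ext
    change frobM K n (iotaM K n a) = iotaM K n (a ^ 2)
    rw [iotaM_apply, iotaM_apply]
    ext i j
    rw [frobM_apply, Matrix.diagonal_apply, Matrix.diagonal_apply]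
    split_ifs
    · rw [← pow_mul, ← pow_mul, mul_comm]
    · simp
  dec := by
    rintro ⟨s, hs⟩
    refine ⟨row0 s 0, ⟨toep n (fun k => row0 s (k + 1)), toep_mem _⟩, ?_⟩
    apply Subtype.ext
    exact dec_aux s hs

theorem twData_pow : (twData K n).π ^ n = 0 := by
  apply Subtype.ext
  change (shiftM K n) ^ n = 0
  have key : ∀ m : ℕ, ∀ i j : Fin n, ((shiftM K n) ^ m) i j =
      if (j : ℕ) = i + m then 1 else 0 := by
    intro m
    induction m with
    | zero =>
      intro i j
      rw [pow_zero, Matrix.one_apply]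
      by_cases h : i = j
      · subst h; simp
      · rw [if_neg h, if_neg (fun hh => h (Fin.ext (by omega)))]
    | succ m ih =>
      intro i j
      rw [pow_succ, mul_shift_apply]
      by_cases hj : 0 < (j : ℕ)
      · rw [dif_pos hj, ih]
        simp only
        by_cases h : (j : ℕ) - 1 = i + m
        · rw [if_pos h, if_pos (by omega)]
        · rw [if_neg h, if_neg (by omega)]
      · rw [dif_neg hj, if_neg (by omega)]
  ext i j
  rw [key, if_neg (by have := j.2; omega)]
  rfl

/-- The augmentation `M ↦ M 0 0`. -/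
def aug : tw K n →+* K where
  toFun M := M.1 0 0
  map_one' := by simp
  map_mul' := by
    rintro ⟨M, hM⟩ ⟨M', hM'⟩
    change (M * M') 0 0 = M 0 0 * M' 0 0
    rw [Matrix.mul_apply, Finset.sum_eq_single (0 : Fin n)]
    · intro b _ hb
      have h1 : M' b 0 = 0 := by
        rw [eq_toep_of_mem hM', toep_apply]
        have : ¬ (b : ℕ) ≤ (0 : Fin n) := by
          intro h
          apply hb
          apply Fin.ext
          simpa using h
        rw [if_neg this]
      rw [h1, mul_zero]
    · intro h; exact absurd (Finset.mem_univ _) h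
  map_zero' := rfl
  map_add' := fun _ _ => rfl

theorem aug_ι (a : K) : aug K n ((twData K n).ι a) = a := by
  change iotaM K n a 0 0 = a
  rw [iotaM_apply]; simp

theorem aug_π : aug K n (twData K n).π = 0 := by
  change shiftM K n 0 0 = 0
  simp [shiftM]

end

end Pool.Agent.Helper41.Isbell
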