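import Pool.Agent.Helper41_Isbell.CountTw

/-!
# Covering the principal units of `F_8[[π; Frob]]` by eight classes of small subgroups
-/

namespace Pool.Agent.Helper41.Isbell

section

variable (K : Type) [Field K] [CharP K 2] (m : ℕ)

/-- The principal units. -/
def princ : Subgroup (tw K (m + 1))ˣ := (Units.map (aug K (m + 1) : tw K (m + 1) →* K)).ker

theorem mem_princ (u : (tw K (m + 1))ˣ) : u ∈ princ K m ↔ aug K (m + 1) (u : tw K (m + 1)) = 1 := by
  rw [princ, MonoidHom.mem_ker]
  constructor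
  · intro h
    have := congrArg Units.val h
    simpa using this
  · intro h
    apply Units.ext
    simpa using h

/-- The unit `ι l`. -/
noncomputable def iotaU (l : Kˣ) : (tw K (m + 1))ˣ :=
  Units.map ((twData K (m + 1)).ι : K →* tw K (m + 1)) l

theorem card_princ [Finite K] : Nat.card (princ K m) = Nat.card K ^ m := by
  have : Finite (tw K (m + 1)) := Finite.of_equiv _ (rowEquiv K m).symm
  have h1 : Nat.card (princ K m) * (princ K m).index = Nat.card (tw K (m + 1))ˣ :=
    Subgroup.card_mul_index _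
  have h2 : (princ K m).index = Nat.card K - 1 := by
    rw [princ, Subgroup.index_ker, ← Nat.card_units K]
    have h3 : (Units.map (aug K (m + 1) : tw K (m + 1) →* K)).range = ⊤ := by
      rw [MonoidHom.range_eq_top]
      intro l
      refine ⟨iotaU K m l, ?_⟩
      apply Units.ext
      exact aug_ι K (m + 1) l
    rw [h3]
    exact Nat.card_congr Subgroup.topEquiv.toEquiv
  rw [h2, card_units, mul_comm] at h1
  have hpos : 0 < Nat.card K - 1 := by
    have := Finite.one_lt_card (α := K)
    omega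
  exact Nat.eq_of_mul_eq_mul_left hpos h1

/-- Elements of the principal units commuting with the coefficient field. -/
noncomputable def unram : Subgroup (tw K (m + 1))ˣ where
  carrier := {u | aug K (m + 1) (u : tw K (m + 1)) = 1 ∧
    ∀ b : K, (u : tw K (m + 1)) * (twData K (m + 1)).ι b = (twData K (m + 1)).ι b * u}
  mul_mem' := by
    rintro a b ⟨ha, ha'⟩ ⟨hb, hb'⟩
    refine ⟨by rw [Units.val_mul, map_mul, ha, hb, one_mul], fun c => ?_⟩
    rw [Units.val_mul, mul_assoc, hb', ← mul_assoc, ha', mul_assoc]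
  one_mem' := ⟨by simp, fun b => by simp⟩
  inv_mem' := by
    rintro a ⟨ha, ha'⟩
    refine ⟨?_, fun c => ?_⟩
    · have h1 : aug K (m + 1) ((a : tw K (m + 1)) * (↑a⁻¹ : tw K (m + 1))) = 1 := by simp
      rw [map_mul, ha, one_mul] at h1
      exact h1
    · rw [Units.inv_mul_eq_iff_eq_mul, ← mul_assoc, ha' c, mul_assoc, Units.mul_inv, mul_one]

theorem mem_unram (u : (tw K (m + 1))ˣ) : u ∈ unram K m ↔
    aug K (m + 1) (u : tw K (m + 1)) = 1 ∧
    ∀ b : K, (u : tw K (m + 1)) * (twData K (m + 1)).ι b = (twData K (m + 1)).ι b * u := Iff.rfl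

/-- Rows of elements commuting with the coefficient field. -/
theorem unram_row (u : (tw K (m + 1))ˣ) (hu : u ∈ unram K m) (k : Fin (m + 1)) (b : K)
    (hb : b ^ (2 ^ (k : ℕ)) ≠ b) : rowEquiv K m u k = 0 := by
  have h := hu.2 b
  have h1 := congrArg (fun M : tw K (m + 1) => M.1 0 k) h
  have h2 : ((u : tw K (m + 1)) * (twData K (m + 1)).ι b : tw K (m + 1)).1 0 k =
      rowEquiv K m u k * b ^ (2 ^ (k : ℕ)) := by
    change ((u : tw K (m + 1)).1 * iotaM K (m + 1) b) 0 k = _
    rw [iotaM_apply, Matrix.mul_diagonal]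
    rfl
  have h3 : ((twData K (m + 1)).ι b * (u : tw K (m + 1)) : tw K (m + 1)).1 0 k =
      b * rowEquiv K m u k := by
    change (iotaM K (m + 1) b * (u : tw K (m + 1)).1) 0 k = _
    rw [iotaM_apply, Matrix.diagonal_mul]
    have h0 : ((0 : Fin (m + 1)) : ℕ) = 0 := rfl
    rw [h0, pow_zero, pow_one]
    rfl
  rw [h2, h3] at h1
  by_contra hne
  apply hb
  have : rowEquiv K m u k * b ^ (2 ^ (k : ℕ)) = rowEquiv K m u k * b := by rw [h1]; ring
  exact mul_left_cancel₀ hne this

/-- Bound on the order of the unramified subgroup. -/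
theorem card_unram_le [Finite K] {q : ℕ} [hq : Fact q.Prime] (hcard : Nat.card K = 2 ^ q) :
    Nat.card (unram K m) ≤ (2 ^ q) ^ (m / q) := by
  classical
  have : Finite (tw K (m + 1)) := Finite.of_equiv _ (rowEquiv K m).symm
  have : Fintype K := Fintype.ofFinite K
  -- there is an element which is not 0 or 1
  obtain ⟨b, hb0, hb1⟩ : ∃ b : K, b ≠ 0 ∧ b ≠ 1 := by
    by_contra hcon
    push Not at hcon
    have h1 : (Set.univ : Set K) ⊆ {0, 1} := by
      intro x _
      by_cases hx : x = 0
      · left; exact hx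
      · right; exact hcon x hx
    have h2 := Set.ncard_le_ncard h1 (Set.toFinite _)
    rw [Set.ncard_univ, hcard, Set.ncard_pair zero_ne_one] at h2
    have h3 : 2 ^ 2 ≤ 2 ^ q := Nat.pow_le_pow_right (by norm_num) hq.out.two_le
    omega
  let f : unram K m → ({i : Fin m // q ∣ (i : ℕ) + 1} → K) := fun u i => rowEquiv K m u.1 i.1.succ
  have hf : Function.Injective f := by
    intro u v h
    apply Subtype.ext
    apply Units.ext
    apply (rowEquiv K m).injective
    funext k
    refine Fin.cases ?_ (fun i => ?_) k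
    · rw [rowEquiv_zero, rowEquiv_zero]
      exact u.2.1.trans v.2.1.symm
    · by_cases hi : q ∣ (i : ℕ) + 1
      · exact congrFun h ⟨i, hi⟩
      · have hb : b ^ (2 ^ ((i.succ : Fin (m + 1)) : ℕ)) ≠ b := by
          intro hh
          exact hb1 (eq_one_of_pow hcard (by simpa using hi) hb0 hh)
        rw [unram_row K m u.1 u.2 i.succ b hb, unram_row K m v.1 v.2 i.succ b hb]
  have h1 := Nat.card_le_card_of_injective f hf
  rw [Nat.card_fun, hcard] at h1
  have h2 : Nat.card {i : Fin m // q ∣ (i : ℕ) + 1} = m / q := by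
    rw [← Nat.card_multiples m q, Nat.card_eq_fintype_card, Fintype.card_subtype]
    apply Finset.card_bij (fun (i : Fin m) _ => (i : ℕ))
    · intro i hi
      simp only [Finset.mem_filter, Finset.mem_univ, true_and, Finset.mem_range] at hi ⊢
      exact ⟨i.2, hi⟩
    · intro i _ j _ h
      exact Fin.ext h
    · intro k hk
      simp only [Finset.mem_filter, Finset.mem_range] at hk
      exact ⟨⟨k, hk.1⟩, by simpa using hk.2, rfl⟩
  rwa [h2] at h1

theorem conj_unramified [Finite K] {n : ℕ} [NeZero n] {q : ℕ} [hq : Fact q.Prime]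
    (hcard : Nat.card K = 2 ^ q)
    (y : tw K n) (j : ℕ) (hj : q ∣ j) (a : K) (ha0 : a ≠ 0) (ha1 : a ≠ 1) (s : tw K n)
    (hy : y = (twData K n).ι a * (twData K n).π ^ j + s * (twData K n).π ^ (j + 1)) :
    ∃ u : (tw K n)ˣ, ∃ t : tw K n, (∀ b, t * (twData K n).ι b = (twData K n).ι b * t) ∧
      (u : tw K n) * y * (↑u⁻¹ : tw K n) = t := by
  set D := twData K n
  obtain ⟨v, t, t', w, ht, _, hw⟩ := D.unramified (twData_pow K n) (j := j) (q := q)
    (fun m hm x => pow_two_pow_of_dvd hcard hm x) hj a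
    (fun k hk h => ha1 (eq_one_of_pow hcard hk ha0 h)) y ⟨s, hy⟩
    (max (j + 1) n) (le_max_left _ _)
  refine ⟨v, t, ht, ?_⟩
  have h0 : D.π ^ (max (j + 1) n) = 0 := by
    obtain ⟨r, hr⟩ := Nat.exists_eq_add_of_le (le_max_right (j + 1) n)
    rw [hr, pow_add, twData_pow, zero_mul]
  rw [h0, mul_zero, add_zero] at hw
  exact hw

/-- Elements `z` with coefficients in the prime field in degrees divisible by `q` are central. -/
theorem central_aux {n : ℕ} [NeZero n] (z : tw K n) (hz : (twData K n).Φ z = z)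
    (hz' : ∀ b, z * (twData K n).ι b = (twData K n).ι b * z) (s : tw K n) : z * s = s * z := by
  set D := twData K n
  have hπ : ∀ j, z * D.π ^ j = D.π ^ j * z := fun j => (D.comm_pow_of_fixed j hz).symm
  have key : ∀ k : ℕ, ∃ s', z * (s - s' * D.π ^ k) = (s - s' * D.π ^ k) * z := by
    intro k
    induction k with
    | zero => exact ⟨s, by simp⟩
    | succ k ih =>
      obtain ⟨s', hs'⟩ := ih
      obtain ⟨c, s'', hs''⟩ := D.dec s'
      refine ⟨s'', ?_⟩
      have h1 : s - s'' * D.π ^ (k + 1) = (s - s' * D.π ^ k) + D.ι c * D.π ^ k := by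
        rw [hs'', add_mul, mul_assoc s'', ← pow_succ']; abel
      rw [h1, mul_add, add_mul, hs', ← mul_assoc, hz' c, mul_assoc, hπ k, mul_assoc]
  obtain ⟨s', hs'⟩ := key n
  rw [twData_pow, mul_zero, sub_zero] at hs'
  exact hs'

/-- **Covering.** Every element of the ring is conjugate to a Frobenius-fixed element or to an element
commuting with the coefficient field. -/
theorem conj_cover [Finite K] {n : ℕ} [NeZero n] {q : ℕ} [hq : Fact q.Prime]
    (hcard : Nat.card K = 2 ^ q) (hodd : Odd q) (y : tw K n) :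
    ∃ u : (tw K n)ˣ, (twData K n).Φ ((u : tw K n) * y * (↑u⁻¹ : tw K n)) =
        (u : tw K n) * y * (↑u⁻¹ : tw K n) ∨
      ∀ b, ((u : tw K n) * y * (↑u⁻¹ : tw K n)) * (twData K n).ι b =
        (twData K n).ι b * ((u : tw K n) * y * (↑u⁻¹ : tw K n)) := by
  set D := twData K n with hD
  -- y = z + s π ^ k with z central of the special form, or a leading noncentral term
  have key : ∀ k : ℕ, (∃ z s, D.Φ z = z ∧ (∀ b, z * D.ι b = D.ι b * z) ∧ y = z + s * D.π ^ k) ∨
      (∃ z s a j, D.Φ z = z ∧ (∀ b, z * D.ι b = D.ι b * z) ∧ a ≠ 0 ∧ (¬ q ∣ j ∨ a ≠ 1) ∧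
        y = z + (D.ι a * D.π ^ j + s * D.π ^ (j + 1))) := by
    intro k
    induction k with
    | zero => left; exact ⟨0, y, by simp, by simp, by simp⟩
    | succ k ih =>
      rcases ih with ⟨z, s, hz, hz', hs⟩ | h
      · obtain ⟨c, s', hs'⟩ := D.dec s
        have hy : y = z + (D.ι c * D.π ^ k + s' * D.π ^ (k + 1)) := by
          rw [hs, hs', add_mul, mul_assoc s', ← pow_succ']
        by_cases hc : c = 0
        · left
          refine ⟨z, s', hz, hz', ?_⟩
          rw [hy, hc]; simp
        · by_cases hqk : ¬ q ∣ k ∨ c ≠ 1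
          · right
            exact ⟨z, s', c, k, hz, hz', hc, hqk, hy⟩
          · push Not at hqk
            obtain ⟨hqk, hc1⟩ := hqk
            left
            refine ⟨z + D.π ^ k, s', ?_, ?_, ?_⟩
            · rw [map_add, map_pow, hz, D.Φπ]
            · intro b
              rw [add_mul, mul_add, hz', D.pow_comm, D.iter_ι, pow_two_pow_of_dvd hcard hqk]
            · rw [hy, hc1, map_one, one_mul, add_assoc]
      · right; exact h
  have hconj : ∀ (z : tw K n) (u : (tw K n)ˣ) (x : tw K n), D.Φ z = z →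
      (∀ b, z * D.ι b = D.ι b * z) → (u : tw K n) * (z + x) * (↑u⁻¹ : tw K n) =
        z + (u : tw K n) * x * (↑u⁻¹ : tw K n) := by
    intro z u x hz hz'
    rw [mul_add, add_mul, ← central_aux K z hz hz' (u : tw K n), mul_assoc z, Units.mul_inv, mul_one]
  rcases key n with ⟨z, s, hz, hz', hs⟩ | ⟨z, s, a, j, hz, hz', ha, haj, hs⟩
  · refine ⟨1, Or.inl ?_⟩
    rw [hs, twData_pow, mul_zero, add_zero]
    simp [hz]
  · by_cases hqj : q ∣ j
    · have ha1 : a ≠ 1 := by
        rcases haj with h | h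
        · exact absurd hqj h
        · exact h
      obtain ⟨u, t, ht, hu⟩ := conj_unramified K hcard _ j hqj a ha ha1 s rfl
      refine ⟨u, Or.inr ?_⟩
      rw [hs, hconj z u _ hz hz', hu]
      intro b
      rw [add_mul, mul_add, hz' b, ht b]
    · obtain ⟨u, t, ht, hu⟩ := conj_ramified hcard hodd _ j hqj a ha s rfl
      refine ⟨u, Or.inl ?_⟩
      rw [hs, hconj z u _ hz hz', hu, map_add, hz, ht]

end

end Pool.Agent.Helper41.Isbell
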