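import Pool.Agent.Helper41_Isbell.TwData
import Pool.Agent.Helper41_Isbell.FieldFacts

/-!
# Units of the ring of twisted Toeplitz matrices: conjugacy and counting
-/

namespace Pool.Agent.Helper41.Isbell

section

variable (K : Type) [Field K] [CharP K 2] (n : ℕ) [NeZero n]

/-- Units fixed by the entrywise Frobenius. -/
noncomputable def fixedUnits : Subgroup (tw K n)ˣ where
  carrier := {u | (twData K n).Φ (u : tw K n) = u}
  mul_mem' := by
    intro a b ha hb
    simp only [Set.mem_ofPred_eq, Units.val_mul, map_mul] at ha hb ⊢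
    rw [ha, hb]
  one_mem' := by simp
  inv_mem' := by
    intro a ha
    simp only [Set.mem_ofPred_eq] at ha ⊢
    have h1 : (a : tw K n) * (twData K n).Φ (↑a⁻¹ : tw K n) = 1 := by
      conv_lhs => rw [← ha]
      rw [← map_mul, Units.mul_inv, map_one]
    exact (Units.eq_inv_of_mul_eq_one_left h1).trans rfl

variable {K n}

theorem mem_fixedUnits (u : (tw K n)ˣ) :
    u ∈ fixedUnits K n ↔ (twData K n).Φ (u : tw K n) = u := Iff.rfl

/-- Every element is `s * π ^ m` or has a leading term below `m`. -/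
theorem leading (D : SkewData K (tw K n)) (y : tw K n) (m : ℕ) :
    (∃ s, y = s * D.π ^ m) ∨ ∃ j < m, ∃ a : K, a ≠ 0 ∧ ∃ s, y = D.ι a * D.π ^ j + s * D.π ^ (j + 1) := by
  induction m with
  | zero => left; exact ⟨y, by simp⟩
  | succ m ih =>
    rcases ih with ⟨s, hs⟩ | ⟨j, hj, h⟩
    · obtain ⟨c, s', hs'⟩ := D.dec s
      by_cases hc : c = 0
      · left
        refine ⟨s', ?_⟩
        rw [hs, hs', hc, map_zero, zero_add, mul_assoc, ← pow_succ']
      · right
        refine ⟨m, Nat.lt_succ_self m, c, hc, s', ?_⟩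
        rw [hs, hs', add_mul, mul_assoc s', ← pow_succ']
    · right
      exact ⟨j, by omega, h⟩

theorem aug_eq_one_of_pow (g : (tw K n)ˣ) (k : ℕ) (h : g ^ (2 ^ k) = 1) :
    aug K n (g : tw K n) = 1 := by
  have h1 : (aug K n (g : tw K n)) ^ (2 ^ k) = 1 := by
    rw [← map_pow, ← Units.val_pow_eq_pow_val, h]; simp
  have h2 : (aug K n (g : tw K n) - 1) ^ (2 ^ k) = 0 := by
    rw [sub_pow_char_pow, h1, one_pow, sub_self]
  have h3 := pow_eq_zero_iff (pow_ne_zero k two_ne_zero) |>.mp h2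
  exact sub_eq_zero.mp h3

/-- A unit which is `1` or has a ramified leading term is conjugate to a Frobenius-fixed unit. -/
theorem conj_ramified [Finite K] {q : ℕ} [hq : Fact q.Prime] (hcard : Nat.card K = 2 ^ q)
    (hodd : Odd q) (y : tw K n) (j : ℕ) (hj : ¬ q ∣ j) (a : K) (ha : a ≠ 0) (s : tw K n)
    (hy : y = (twData K n).ι a * (twData K n).π ^ j + s * (twData K n).π ^ (j + 1)) :
    ∃ u : (tw K n)ˣ, ∃ t : tw K n, (twData K n).Φ t = t ∧ (u : tw K n) * y * (↑u⁻¹ : tw K n) = t := by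
  set D := twData K n
  obtain ⟨l, hl, hla⟩ := exists_scale hcard hj a ha
  obtain ⟨u, _, s', hs'⟩ := D.scale a l hl hla y s hy
  obtain ⟨v, t, t', w, ht, _, hw⟩ := D.ramified (twData_pow K n) (j := j)
    (fun c => exists_add hcard hodd hj c) ((u : tw K n) * y * (↑u⁻¹ : tw K n)) ⟨s', hs'⟩
    (max (j + 1) n) (le_max_left _ _)
  refine ⟨v * u, t, ht, ?_⟩
  have h0 : D.π ^ (max (j + 1) n) = 0 := by
    obtain ⟨r, hr⟩ := Nat.exists_eq_add_of_le (le_max_right (j + 1) n)
    rw [hr, pow_add, twData_pow, zero_mul]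
  rw [h0, mul_zero, add_zero] at hw
  rw [← hw, Units.val_mul, mul_inv_rev, Units.val_mul]
  noncomm_ring

/-- If `n ≤ q`, every unit of 2-power order is conjugate to a Frobenius-fixed unit. -/
theorem conj_of_two_pow [Finite K] {q : ℕ} [hq : Fact q.Prime] (hcard : Nat.card K = 2 ^ q)
    (hodd : Odd q) (hnq : n ≤ q) (g : (tw K n)ˣ) (k : ℕ) (hg : g ^ (2 ^ k) = 1) :
    ∃ u : (tw K n)ˣ, u * g * u⁻¹ ∈ fixedUnits K n := by
  set D := twData K n with hD
  have haug := aug_eq_one_of_pow g k hg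
  set y : tw K n := g - 1 with hy
  have hy0 : aug K n y = 0 := by rw [hy, map_sub, haug, map_one, sub_self]
  rcases leading D y n with ⟨s, hs⟩ | ⟨j, hj, a, ha, s, hs⟩
  · rw [twData_pow, mul_zero] at hs
    refine ⟨1, ?_⟩
    have : g = 1 := by
      apply Units.ext
      rw [hy] at hs
      exact sub_eq_zero.mp hs
    rw [this]
    simp [one_mem]
  · have hj0 : j ≠ 0 := by
      intro h0
      rw [hs, h0, pow_zero, mul_one, map_add, map_mul, map_pow, aug_ι] at hy0
      rw [aug_π] at hy0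
      apply ha
      simpa using hy0
    have hqj : ¬ q ∣ j := by
      intro h
      have := Nat.le_of_dvd (Nat.pos_of_ne_zero hj0) h
      omega
    obtain ⟨u, t, ht, hut⟩ := conj_ramified hcard hodd y j hqj a ha s hs
    refine ⟨u, ?_⟩
    rw [mem_fixedUnits]
    have h1 : ((u * g * u⁻¹ : (tw K n)ˣ) : tw K n) = 1 + t := by
      rw [Units.val_mul, Units.val_mul, ← hut, hy]
      have : (u : tw K n) * ((g : tw K n) - 1) * (↑u⁻¹ : tw K n) =
          (u : tw K n) * (g : tw K n) * (↑u⁻¹ : tw K n) - 1 := by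
        rw [mul_sub, sub_mul, mul_one, Units.mul_inv]
      rw [this]; abel
    rw [h1, map_add, map_one, ht]

/-- An element with nonzero augmentation is a unit. -/
theorem isUnit_of_aug (M : tw K n) (h : aug K n M ≠ 0) : IsUnit M := by
  set D := twData K n
  obtain ⟨c, s, hM⟩ := D.dec M
  have hc' : c ≠ 0 := by
    rintro rfl
    apply h
    rw [hM, map_zero, zero_add, map_mul, aug_π, mul_zero]
  have h1 : M = D.ι c * (1 + (D.ι c⁻¹ * s) * D.π ^ 1) := by
    rw [hM, mul_add, mul_one, ← mul_assoc, ← mul_assoc, ← map_mul, mul_inv_cancel₀ hc', map_one,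
      one_mul, pow_one]
  rw [h1]
  apply IsUnit.mul
  · exact (Units.mk0 c hc').isUnit.map D.ι
  · exact IsNilpotent.isUnit_one_add (D.nilp (twData_pow K n) _ one_pos)

end

end Pool.Agent.Helper41.Isbell
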